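import Mathlib

set_option autoImplicit false

/-!
# A pigeonhole principle for random variables with few values

If `X_1, …, X_M` are random variables with `m` values and `|Pr[X_i < X_j] - Pr[X_j < X_i]| ≥ β`
for all `i ≠ j`, then `M` is bounded in terms of `m` and `β`.
-/

namespace Pool.Agent.Helper23.KS

/-- Transitive sublists of tournaments. -/
theorem exists_transitive_list {ι : Type*} [DecidableEq ι] (R : ι → ι → Prop) (k : ℕ) :
    ∀ S : Finset ι, 2 ^ k ≤ S.card → (∀ i ∈ S, ∀ j ∈ S, i ≠ j → R i j ∨ R j i) →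
      ∃ l : List ι, l.length = k ∧ (∀ x ∈ l, x ∈ S) ∧ l.Pairwise R := by
  classical
  induction k with
  | zero => intro S _ _; exact ⟨[], rfl, by simp, List.Pairwise.nil⟩
  | succ k ih =>
    intro S hS hR
    have hne : S.Nonempty := by
      rw [← Finset.card_pos]; exact lt_of_lt_of_le (by positivity) hS
    obtain ⟨v, hv⟩ := hne
    set A := (S.erase v).filter (fun j => R v j) with hA
    set B := (S.erase v).filter (fun j => ¬ R v j) with hB
    have hcard : A.card + B.card = S.card - 1 := by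
      rw [hA, hB, Finset.card_filter_add_card_filter_not, Finset.card_erase_of_mem hv]
    have h2 : 2 ^ (k + 1) = 2 ^ k + 2 ^ k := by ring
    have hpos : 0 < 2 ^ k := by positivity
    rcases Nat.lt_or_ge A.card (2 ^ k) with h | h
    · have hBc : 2 ^ k ≤ B.card := by omega
      obtain ⟨l, hl, hlS, hlR⟩ := ih B hBc (by
        intro i hi j hj hij
        exact hR i (Finset.mem_of_mem_erase (Finset.mem_filter.1 hi).1) j
          (Finset.mem_of_mem_erase (Finset.mem_filter.1 hj).1) hij)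
      refine ⟨l ++ [v], by simp [hl], ?_, ?_⟩
      · intro x hx
        rcases List.mem_append.1 hx with hx | hx
        · exact Finset.mem_of_mem_erase (Finset.mem_filter.1 (hlS x hx)).1
        · have : x = v := by simpa using hx
          rw [this]; exact hv
      · rw [List.pairwise_append]
        refine ⟨hlR, List.pairwise_singleton _ _, ?_⟩
        intro a ha b hb
        have hbv : b = v := by simpa using hb
        subst hbv
        have := Finset.mem_filter.1 (hlS a ha)
        rcases hR a (Finset.mem_of_mem_erase this.1) b hv (Finset.ne_of_mem_erase this.1) with h1 | h1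
        · exact h1
        · exact absurd h1 this.2
    · obtain ⟨l, hl, hlS, hlR⟩ := ih A h (by
        intro i hi j hj hij
        exact hR i (Finset.mem_of_mem_erase (Finset.mem_filter.1 hi).1) j
          (Finset.mem_of_mem_erase (Finset.mem_filter.1 hj).1) hij)
      refine ⟨v :: l, by simp [hl], ?_, ?_⟩
      · intro x hx
        rcases List.mem_cons.1 hx with hx | hx
        · rw [hx]; exact hv
        · exact Finset.mem_of_mem_erase (Finset.mem_filter.1 (hlS x hx)).1
      · rw [List.pairwise_cons]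
        exact ⟨fun a ha => (Finset.mem_filter.1 (hlS a ha)).2, hlR⟩

section Hilbert

variable {H : Type*} [NormedAddCommGroup H] [InnerProductSpace ℝ H]

/-- Average of `2 ^ L` consecutive vectors. -/
noncomputable def av (v : ℕ → H) : ℕ → ℕ → H
  | 0, s => v s
  | L + 1, s => (2⁻¹ : ℝ) • (av v L s + av v L (s + 2 ^ L))

theorem norm_av_sq_le (B : H →ₗ[ℝ] H →ₗ[ℝ] ℝ) (C β : ℝ) (hC : 0 < C) (hβ : 0 ≤ β)
    (hB : ∀ u v, |B u v| ≤ C * ‖u‖ * ‖v‖) (hBs : ∀ u, B u u = 0)
    (v : ℕ → H) (hv : ∀ i, ‖v i‖ ≤ 1) (K : ℕ)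
    (hvB : ∀ i j, i < j → j < K → β ≤ B (v i) (v j)) (L : ℕ) :
    (∀ s, s + 2 ^ L ≤ K → ‖av v L s‖ ≤ 1 ∧ ‖av v L s‖ ^ 2 ≤ 1 - L * (β ^ 2 / (4 * C ^ 2))) ∧
    (∀ s i, i < s → s + 2 ^ L ≤ K → β ≤ B (v i) (av v L s)) ∧
    (∀ s t, s + 2 ^ L ≤ t → t + 2 ^ L ≤ K → β ≤ B (av v L s) (av v L t)) := by
  have key : ∀ L : ℕ, (∀ s i, i < s → s + 2 ^ L ≤ K → β ≤ B (v i) (av v L s)) := by
    intro L
    induction L with
    | zero => intro s i hi hs; exact hvB i s hi (by simpa using hs)
    | succ L ih =>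
      intro s i hi hs
      have h2 : 2 ^ (L + 1) = 2 ^ L + 2 ^ L := by ring
      have hpos : 0 < 2 ^ L := by positivity
      have h1 := ih s i hi (by omega)
      have h3 := ih (s + 2 ^ L) i (by omega) (by omega)
      simp only [av, map_smul, map_add, smul_eq_mul]
      linarith
  have key2 : ∀ L' L : ℕ, ∀ s t, s + 2 ^ L' ≤ t → t + 2 ^ L ≤ K → β ≤ B (av v L' s) (av v L t) := by
    intro L'
    induction L' with
    | zero => intro L s t hst ht; exact key L t s (by simpa using hst) ht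
    | succ L' ih =>
      intro L s t hst ht
      have h2 : 2 ^ (L' + 1) = 2 ^ L' + 2 ^ L' := by ring
      have hpos : 0 < 2 ^ L' := by positivity
      have h1 := ih L s t (by omega) ht
      have h3 := ih L (s + 2 ^ L') t (by omega) ht
      simp only [av, map_smul, map_add, smul_eq_mul, LinearMap.add_apply, LinearMap.smul_apply]
      linarith
  refine ⟨?_, key L, fun s t h1 h2 => key2 L L s t h1 h2⟩
  induction L with
  | zero =>
    intro s _
    refine ⟨hv s, ?_⟩
    have := hv s
    have h0 := norm_nonneg (v s)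
    simp only [av, Nat.cast_zero, zero_mul, sub_zero]
    nlinarith
  | succ L ih =>
    intro s hs
    have h2 : 2 ^ (L + 1) = 2 ^ L + 2 ^ L := by ring
    have hpos : 0 < 2 ^ L := by positivity
    obtain ⟨h1a, h1b⟩ := ih s (by omega)
    obtain ⟨h3a, h3b⟩ := ih (s + 2 ^ L) (by omega)
    have h4 := key2 L L s (s + 2 ^ L) le_rfl (by omega)
    set a := av v L s with ha
    set b := av v L (s + 2 ^ L) with hb
    have h5 : B a b = B a (b - a) := by rw [map_sub, hBs, sub_zero]
    have h6 := hB a (b - a)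
    have h7 : β ≤ C * ‖b - a‖ := by
      have : B a (b - a) ≤ C * ‖a‖ * ‖b - a‖ := le_trans (le_abs_self _) h6
      have h8 : C * ‖a‖ * ‖b - a‖ ≤ C * 1 * ‖b - a‖ := by gcongr
      linarith
    have h9 : β ^ 2 / (4 * C ^ 2) ≤ ‖b - a‖ ^ 2 / 4 := by
      rw [div_le_div_iff₀ (by positivity) (by norm_num)]
      have : β ^ 2 ≤ (C * ‖b - a‖) ^ 2 := by gcongr
      nlinarith
    have par : ‖a + b‖ ^ 2 + ‖a - b‖ ^ 2 = 2 * (‖a‖ ^ 2 + ‖b‖ ^ 2) := by
      have := parallelogram_law_with_norm ℝ a b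
      nlinarith
    have hab : ‖a - b‖ = ‖b - a‖ := norm_sub_rev a b
    have hn : ‖av v (L + 1) s‖ = 2⁻¹ * ‖a + b‖ := by
      simp only [av, norm_smul, ← ha, ← hb]
      norm_num
    constructor
    · rw [hn]
      have := norm_add_le a b
      linarith
    · rw [hn]
      push_cast
      have : (2⁻¹ * ‖a + b‖) ^ 2 = (‖a + b‖ ^ 2) / 4 := by ring
      rw [this]
      rw [hab] at par
      nlinarith

theorem no_long_transitive (B : H →ₗ[ℝ] H →ₗ[ℝ] ℝ) (C β : ℝ) (hC : 0 < C) (hβ : 0 < β)
    (hB : ∀ u v, |B u v| ≤ C * ‖u‖ * ‖v‖) (hBs : ∀ u, B u u = 0)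
    (v : ℕ → H) (hv : ∀ i, ‖v i‖ ≤ 1) (L : ℕ) (hL : 4 * C ^ 2 / β ^ 2 < L)
    (hvB : ∀ i j, i < j → j < 2 ^ L → β ≤ B (v i) (v j)) : False := by
  obtain ⟨h1, -, -⟩ := norm_av_sq_le B C β hC hβ.le hB hBs v hv (2 ^ L) hvB L
  obtain ⟨-, h2⟩ := h1 0 (by simp)
  have h3 : 1 < L * (β ^ 2 / (4 * C ^ 2)) := by
    rw [div_lt_iff₀ (by positivity)] at hL
    rw [← mul_div_assoc, lt_div_iff₀ (by positivity)]
    linarith
  have := sq_nonneg ‖av v L 0‖
  linarith

end Hilbert

section Prob

open Classical in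
/-- Probability of an event for the uniform distribution on the finite set `Om`. -/
noncomputable def pr {α : Type*} (Om : Finset α) (p : α → Prop) : ℝ :=
  ((Om.filter p).card : ℝ) / (Om.card : ℝ)

variable {α ι : Type*}

theorem pr_eq_sum (Om : Finset α) (p : α → Prop) [DecidablePred p] :
    pr Om p = ∑ x ∈ Om, (if p x then (1 : ℝ) else 0) / (Om.card : ℝ) := by
  classical
  unfold pr
  rw [← Finset.sum_div, Finset.sum_boole]
  congr!

/-- Sign. -/
def sg (a b : ℕ) : ℝ := if a < b then 1 else if b < a then -1 else 0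

theorem sg_sq_le (a b : ℕ) : (sg a b) ^ 2 ≤ 1 := by
  unfold sg; split_ifs <;> norm_num

theorem sg_neg (a b : ℕ) : sg a b = - sg b a := by
  unfold sg; split_ifs <;> first | omega | norm_num

/-- The space of functions on `Om × Fin m`. -/
abbrev Hs (Om : Finset α) (m : ℕ) := EuclideanSpace ℝ (Om × Fin m)

/-- The skew form. -/
noncomputable def Bf (Om : Finset α) (m : ℕ) : Hs Om m →ₗ[ℝ] Hs Om m →ₗ[ℝ] ℝ :=
  LinearMap.mk₂ ℝ (fun u v => ∑ w : Om, ∑ a : Fin m, ∑ b : Fin m, sg a b * u (w, a) * v (w, b))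
    (by
      intro u u' v
      simp only [← Finset.sum_add_distrib]
      refine Finset.sum_congr rfl fun w _ => Finset.sum_congr rfl fun a _ =>
        Finset.sum_congr rfl fun b _ => ?_
      simp only [PiLp.add_apply]; ring)
    (by
      intro c u v
      simp only [smul_eq_mul, Finset.mul_sum]
      refine Finset.sum_congr rfl fun w _ => Finset.sum_congr rfl fun a _ =>
        Finset.sum_congr rfl fun b _ => ?_
      simp only [PiLp.smul_apply, smul_eq_mul]; ring)
    (by
      intro u v v'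
      simp only [← Finset.sum_add_distrib]
      refine Finset.sum_congr rfl fun w _ => Finset.sum_congr rfl fun a _ =>
        Finset.sum_congr rfl fun b _ => ?_
      simp only [PiLp.add_apply]; ring)
    (by
      intro c u v
      simp only [smul_eq_mul, Finset.mul_sum]
      refine Finset.sum_congr rfl fun w _ => Finset.sum_congr rfl fun a _ =>
        Finset.sum_congr rfl fun b _ => ?_
      simp only [PiLp.smul_apply, smul_eq_mul]; ring)

theorem Bf_apply (Om : Finset α) (m : ℕ) (u v : Hs Om m) :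
    Bf Om m u v = ∑ w : Om, ∑ a : Fin m, ∑ b : Fin m, sg a b * u (w, a) * v (w, b) := rfl

theorem Bf_self (Om : Finset α) (m : ℕ) (u : Hs Om m) : Bf Om m u u = 0 := by
  have h : Bf Om m u u = - Bf Om m u u := by
    conv_lhs => rw [Bf_apply]
    rw [Bf_apply, ← Finset.sum_neg_distrib]
    refine Finset.sum_congr rfl fun w _ => ?_
    conv_lhs => rw [Finset.sum_comm]
    rw [← Finset.sum_neg_distrib]
    refine Finset.sum_congr rfl fun a _ => ?_
    rw [← Finset.sum_neg_distrib]
    refine Finset.sum_congr rfl fun b _ => ?_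
    have h1 := sg_neg (a : ℕ) b
    rw [h1]; ring
  linarith

theorem Bf_le (Om : Finset α) (m : ℕ) (u v : Hs Om m) :
    |Bf Om m u v| ≤ (m : ℝ) * ‖u‖ * ‖v‖ := by
  have h1 : (Bf Om m u v) ^ 2 ≤ (m * ‖u‖ ^ 2) * (m * ‖v‖ ^ 2) := by
    have e1 : Bf Om m u v = ∑ x : Om × Fin m × Fin m,
        (sg x.2.1 x.2.2 * u (x.1, x.2.1)) * v (x.1, x.2.2) := by
      rw [Bf_apply, Fintype.sum_prod_type]
      refine Finset.sum_congr rfl fun w _ => ?_
      rw [Fintype.sum_prod_type]
    rw [e1]
    refine le_trans (Finset.sum_mul_sq_le_sq_mul_sq _ _ _) ?_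
    have e2 : ∑ x : Om × Fin m × Fin m, (sg x.2.1 x.2.2 * u (x.1, x.2.1)) ^ 2 ≤ m * ‖u‖ ^ 2 := by
      rw [EuclideanSpace.norm_sq_eq, Finset.mul_sum, Fintype.sum_prod_type, Fintype.sum_prod_type]
      refine Finset.sum_le_sum fun w _ => ?_
      rw [Fintype.sum_prod_type]
      refine Finset.sum_le_sum fun a _ => ?_
      have : ∀ b : Fin m, (sg a b * u (w, a)) ^ 2 ≤ ‖u (w, a)‖ ^ 2 := by
        intro b
        rw [mul_pow, Real.norm_eq_abs, sq_abs]
        have := sg_sq_le a b
        nlinarith [sq_nonneg (u (w, a))]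
      calc ∑ b : Fin m, (sg a b * u (w, a)) ^ 2 ≤ ∑ _b : Fin m, ‖u (w, a)‖ ^ 2 :=
            Finset.sum_le_sum fun b _ => this b
        _ = m * ‖u (w, a)‖ ^ 2 := by simp
    have e3 : ∑ x : Om × Fin m × Fin m, (v (x.1, x.2.2)) ^ 2 ≤ m * ‖v‖ ^ 2 := by
      rw [EuclideanSpace.norm_sq_eq, Finset.mul_sum, Fintype.sum_prod_type, Fintype.sum_prod_type]
      refine Finset.sum_le_sum fun w _ => ?_
      rw [Fintype.sum_prod_type]
      simp only
      rw [← Finset.mul_sum, Finset.sum_const, Finset.card_univ, Fintype.card_fin, nsmul_eq_mul]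
      refine le_of_eq ?_
      congr 1
      refine Finset.sum_congr rfl fun b _ => ?_
      rw [Real.norm_eq_abs, sq_abs]
    have h0 : 0 ≤ ∑ x : Om × Fin m × Fin m, (v (x.1, x.2.2)) ^ 2 :=
      Finset.sum_nonneg fun _ _ => sq_nonneg _
    have h0' : (0 : ℝ) ≤ m * ‖u‖ ^ 2 := by positivity
    exact mul_le_mul e2 e3 h0 h0'
  have h2 : (m * ‖u‖ ^ 2) * (m * ‖v‖ ^ 2) = ((m : ℝ) * ‖u‖ * ‖v‖) ^ 2 := by ring
  rw [h2] at h1
  exact abs_le_of_sq_le_sq h1 (by positivity)

/-- The vector of a random variable. -/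
noncomputable def vec (Om : Finset α) (m : ℕ) (X : α → ℕ) : Hs Om m :=
  WithLp.toLp 2 (fun x => (if X x.1 = x.2 then (1 : ℝ) else 0) / Real.sqrt Om.card)

theorem vec_apply (Om : Finset α) (m : ℕ) (X : α → ℕ) (x : Om × Fin m) :
    vec Om m X x = (if X x.1 = x.2 then (1 : ℝ) else 0) / Real.sqrt Om.card := rfl

theorem norm_vec_le (Om : Finset α) (m : ℕ) (X : α → ℕ) : ‖vec Om m X‖ ≤ 1 := by
  have h : ‖vec Om m X‖ ^ 2 ≤ 1 := by
    rw [EuclideanSpace.norm_sq_eq, Fintype.sum_prod_type]
    have : ∀ w : Om, ∑ a : Fin m, ‖vec Om m X (w, a)‖ ^ 2 ≤ 1 / Om.card := by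
      intro w
      have e : ∀ a : Fin m, ‖vec Om m X (w, a)‖ ^ 2 =
          (if X w = a then (1 : ℝ) else 0) / Om.card := by
        intro a
        rw [vec_apply, Real.norm_eq_abs, sq_abs, div_pow, Real.sq_sqrt (by positivity)]
        simp only
        split_ifs <;> norm_num
      simp only [e]
      rw [← Finset.sum_div]
      gcongr
      by_cases hm : X w < m
      · rw [Finset.sum_eq_single (⟨X w, hm⟩ : Fin m)]
        · simp
        · intro b _ hb
          rw [if_neg]
          intro hh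
          exact hb (Fin.ext hh.symm)
        · intro hh; exact absurd (Finset.mem_univ _) hh
      · rw [Finset.sum_eq_zero]
        · norm_num
        · intro b _
          rw [if_neg]
          intro hh
          exact hm (hh ▸ b.2)
    calc ∑ w : Om, ∑ a : Fin m, ‖vec Om m X (w, a)‖ ^ 2 ≤ ∑ _w : Om, (1 : ℝ) / Om.card :=
          Finset.sum_le_sum fun w _ => this w
      _ ≤ 1 := by
          rw [Finset.sum_const, Finset.card_univ, Fintype.card_coe, nsmul_eq_mul]
          by_cases hc : (Om.card : ℝ) = 0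
          · rw [hc]; norm_num
          · rw [mul_one_div, div_self hc]
  have h0 := norm_nonneg (vec Om m X)
  nlinarith

theorem Bf_vec (Om : Finset α) (m : ℕ) (X Y : α → ℕ) (hX : ∀ w ∈ Om, X w < m)
    (hY : ∀ w ∈ Om, Y w < m) :
    Bf Om m (vec Om m X) (vec Om m Y) =
      pr Om (fun w => X w < Y w) - pr Om (fun w => Y w < X w) := by
  rw [Bf_apply, pr_eq_sum, pr_eq_sum, ← Finset.sum_sub_distrib, ← Finset.sum_coe_sort Om]
  refine Finset.sum_congr rfl fun w _ => ?_
  rw [Finset.sum_eq_single (⟨X w, hX w w.2⟩ : Fin m)]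
  · rw [Finset.sum_eq_single (⟨Y w, hY w w.2⟩ : Fin m)]
    · simp only [vec_apply, if_true]
      have h1 : (1 / Real.sqrt Om.card) * (1 / Real.sqrt Om.card) = 1 / (Om.card : ℝ) := by
        rw [div_mul_div_comm, Real.mul_self_sqrt (by positivity), one_mul]
      rw [mul_assoc, h1]
      unfold sg
      split_ifs <;> first | omega | ring
    · intro b _ hb
      rw [vec_apply Om m Y, if_neg (fun hh => hb (Fin.ext hh.symm))]
      ring
    · intro hh; exact absurd (Finset.mem_univ _) hh
  · intro a _ ha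
    refine Finset.sum_eq_zero fun b _ => ?_
    rw [vec_apply Om m X, if_neg (fun hh => ha (Fin.ext hh.symm))]
    ring
  · intro hh; exact absurd (Finset.mem_univ _) hh

/-- Komlós's pigeonhole principle: finitely many random variables with `m` values which are
pairwise unbalanced. -/
theorem komlos (Om : Finset α) (m : ℕ) (hm : 0 < m) (β : ℝ) (hβ : 0 < β) (L : ℕ)
    (hL : 4 * (m : ℝ) ^ 2 / β ^ 2 < L) (X : ι → α → ℕ) (S : Finset ι)
    (hX : ∀ i ∈ S, ∀ w ∈ Om, X i w < m)
    (h : ∀ i ∈ S, ∀ j ∈ S, i ≠ j →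
      β ≤ |pr Om (fun w => X i w < X j w) - pr Om (fun w => X j w < X i w)|) :
    S.card < 2 ^ (2 ^ L) := by
  classical
  by_contra hcon
  push Not at hcon
  obtain ⟨l, hl, hlS, hlR⟩ := exists_transitive_list
    (fun i j => β ≤ pr Om (fun w => X i w < X j w) - pr Om (fun w => X j w < X i w))
    (2 ^ L) S hcon (by
      intro i hi j hj hij
      rcases le_abs.1 (h i hi j hj hij) with h1 | h1
      · exact Or.inl h1
      · right; simpa using h1)
  set v : ℕ → Hs Om m := fun k => if hk : k < l.length then vec Om m (X l[k]) else 0 with hv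
  refine no_long_transitive (Bf Om m) m β (by exact_mod_cast hm) hβ (Bf_le Om m) (Bf_self Om m) v
    ?_ L hL ?_
  · intro i
    simp only [hv]
    split_ifs
    · exact norm_vec_le _ _ _
    · simp
  · intro i j hij hj
    rw [← hl] at hj
    have hi : i < l.length := lt_trans hij hj
    simp only [hv, dif_pos hi, dif_pos hj]
    rw [Bf_vec Om m _ _ (hX _ (hlS _ (List.getElem_mem hi))) (hX _ (hlS _ (List.getElem_mem hj)))]
    exact List.pairwise_iff_getElem.1 hlR i j hi hj hij

end Prob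

end Pool.Agent.Helper23.KS
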