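import Mathlib
import Pool.Agent.Helper23.KS.Komlos

set_option autoImplicit false

/-!
# The discrete model

`Om r N` is the set of the maps `φ : Fin n → {0, …, N - 1}` (as integers) with `φ i ≤ φ j`
whenever `r i j`. `pr` is the uniform distribution on a finite set.
-/

namespace Pool.Agent.Helper23.KS

open Classical in
/-- Order preserving maps from `(Fin n, r)` to `{0, …, N - 1}`. -/
noncomputable def Om {n : ℕ} (r : Fin n → Fin n → Prop) (N : ℕ) : Finset (Fin n → ℤ) :=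
  (Fintype.piFinset (fun _ : Fin n => Finset.Ico (0 : ℤ) N)).filter
    (fun f => ∀ i j, r i j → f i ≤ f j)

/-- The distribution function of the coordinate `q`. -/
noncomputable def cdf {n : ℕ} (O : Finset (Fin n → ℤ)) (q : Fin n) (u : ℤ) : ℝ :=
  pr O (fun f => f q < u)

/-- The properties of `Om r N` which the main argument uses. -/
structure Model {n : ℕ} (N : ℕ) (O : Finset (Fin n → ℤ)) (g e : ℝ) : Prop where
  npos : 0 < n
  le : n ≤ N
  nonempty : O.Nonempty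
  range : ∀ f ∈ O, ∀ q, 0 ≤ f q ∧ f q < N
  lcF : ∀ (q : Fin n) (a b t : ℤ), a ≤ b → 0 ≤ t →
    cdf O q (a - t) * cdf O q b ≤ cdf O q a * cdf O q (b - t)
  lcG : ∀ (q : Fin n) (a b t : ℤ), a ≤ b → 0 ≤ t →
    (1 - cdf O q (b + t)) * (1 - cdf O q a) ≤ (1 - cdf O q b) * (1 - cdf O q (a + t))
  assoc : ∀ (i j : Fin n) (u v : ℤ),
    cdf O i u * cdf O j v ≤ pr O (fun f => f i < u ∧ f j < v)
  mean_le : ∀ u : ℤ, 0 ≤ u → ∑ q, cdf O q u ≤ (n : ℝ) / N * u + e
  le_mean : ∀ u : ℤ, u ≤ N → (n : ℝ) / N * u - e ≤ ∑ q, cdf O q u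
  var : ∀ u : ℤ, 0 ≤ u →
    ∑ i, ∑ j, (pr O (fun f => f i < u ∧ f j < u) - cdf O i u * cdf O j u) ≤ (n : ℝ) / N * u + e
  unb : ∀ i j : Fin n, i ≠ j →
    pr O (fun f => f i < f j) ≤ 1 / 2 - g ∨ pr O (fun f => f j < f i) ≤ 1 / 2 - g

end Pool.Agent.Helper23.KS
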