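import Mathlib
import Pool.Agent.Helper23.KS.Model

set_option autoImplicit false

/-!
# Log-concavity and association, from Daykin's inequality
-/

namespace Pool.Agent.Helper23.KS

open scoped FinsetFamily

variable {n : ℕ}

theorem daykin_shift (c : ℤ) (A B C D : Finset (Fin n → ℤ))
    (h1 : ∀ f ∈ A, ∀ g ∈ B, (fun i => min (f i + c) (g i)) ∈ C)
    (h2 : ∀ f ∈ A, ∀ g ∈ B, (fun i => max (f i + c) (g i) - c) ∈ D) :
    A.card * B.card ≤ C.card * D.card := by
  classical
  have hinj : Function.Injective (fun (f : Fin n → ℤ) => (fun i => f i + c)) := by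
    intro f g h
    funext i
    have := congrFun h i
    simpa using this
  have hinj2 : Function.Injective (fun (f : Fin n → ℤ) => (fun i => f i - c)) := by
    intro f g h
    funext i
    have := congrFun h i
    simpa using this
  set A' := A.image (fun f => (fun i => f i + c)) with hA'
  have hc : A'.card = A.card := Finset.card_image_of_injective _ hinj
  have hD := Finset.le_card_infs_mul_card_sups A' B
  rw [hc] at hD
  refine hD.trans (Nat.mul_le_mul ?_ ?_)
  · refine Finset.card_le_card ?_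
    intro x hx
    obtain ⟨a, ha, b, hb, hab⟩ := Finset.mem_infs.1 hx
    obtain ⟨f, hf, hfa⟩ := Finset.mem_image.1 ha
    have := h1 f hf b hb
    have e : x = (fun i => min (f i + c) (b i)) := by
      rw [← hab, ← hfa]; rfl
    rw [e]; exact this
  · rw [← Finset.card_image_of_injective (A' ⊻ B) hinj2]
    refine Finset.card_le_card ?_
    intro x hx
    obtain ⟨x', hx', hxx⟩ := Finset.mem_image.1 hx
    obtain ⟨a, ha, b, hb, hab⟩ := Finset.mem_sups.1 hx'
    obtain ⟨f, hf, hfa⟩ := Finset.mem_image.1 ha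
    have := h2 f hf b hb
    have e : x = (fun i => max (f i + c) (b i) - c) := by
      rw [← hxx, ← hab, ← hfa]; rfl
    rw [e]; exact this

theorem mem_Om {r : Fin n → Fin n → Prop} {N : ℕ} {f : Fin n → ℤ} :
    f ∈ Om r N ↔ (∀ i, 0 ≤ f i ∧ f i < N) ∧ (∀ i j, r i j → f i ≤ f j) := by
  unfold Om
  simp only [Finset.mem_filter, Fintype.mem_piFinset, Finset.mem_Ico]

theorem pr_compl {α : Type*} (O : Finset α) (hO : O.Nonempty) (p : α → Prop) :
    pr O (fun x => ¬ p x) = 1 - pr O p := by
  classical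
  have hpos : (0 : ℝ) < O.card := by exact_mod_cast hO.card_pos
  rw [pr_eq_sum, pr_eq_sum, eq_sub_iff_add_eq, ← Finset.sum_add_distrib]
  have : ∀ x ∈ O, (if ¬ p x then (1 : ℝ) else 0) / O.card + (if p x then (1 : ℝ) else 0) / O.card
      = 1 / O.card := by
    intro x _
    rw [← add_div]
    congr 1
    by_cases hp : p x <;> simp [hp]
  rw [Finset.sum_congr rfl this, Finset.sum_const, nsmul_eq_mul, mul_one_div, div_self hpos.ne']

theorem pr_daykin (r : Fin n → Fin n → Prop) (N : ℕ) (c : ℤ) (hc : 0 ≤ c)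
    (p q s t : (Fin n → ℤ) → Prop)
    (h1 : ∀ f g : Fin n → ℤ, p f → q g → s (fun i => min (f i + c) (g i)))
    (h2 : ∀ f g : Fin n → ℤ, p f → q g → t (fun i => max (f i + c) (g i) - c)) :
    pr (Om r N) p * pr (Om r N) q ≤ pr (Om r N) s * pr (Om r N) t := by
  classical
  unfold pr
  rw [div_mul_div_comm, div_mul_div_comm]
  refine div_le_div_of_nonneg_right ?_ (by positivity)
  norm_cast
  refine daykin_shift c _ _ _ _ ?_ ?_
  · intro f hf g hg
    rw [Finset.mem_filter, mem_Om] at hf hg ⊢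
    obtain ⟨⟨hf1, hf2⟩, hf3⟩ := hf
    obtain ⟨⟨hg1, hg2⟩, hg3⟩ := hg
    refine ⟨⟨fun i => ⟨?_, ?_⟩, fun i j hij => ?_⟩, h1 f g hf3 hg3⟩
    · have h1 := hf1 i; have h2 := hg1 i
      exact le_min (by omega) (by omega)
    · have h2 := hg1 i
      exact lt_of_le_of_lt (min_le_right _ _) h2.2
    · have h1 := hf2 i j hij; have h2 := hg2 i j hij
      exact min_le_min (by omega) h2
  · intro f hf g hg
    rw [Finset.mem_filter, mem_Om] at hf hg ⊢
    obtain ⟨⟨hf1, hf2⟩, hf3⟩ := hf
    obtain ⟨⟨hg1, hg2⟩, hg3⟩ := hg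
    refine ⟨⟨fun i => ⟨?_, ?_⟩, fun i j hij => ?_⟩, h2 f g hf3 hg3⟩
    · have h1 := hf1 i
      have := le_max_left (f i + c) (g i)
      omega
    · have h1 := hf1 i; have h2 := hg1 i
      have : max (f i + c) (g i) < N + c := max_lt (by omega) (by omega)
      omega
    · have h1 := hf2 i j hij; have h2 := hg2 i j hij
      have : max (f i + c) (g i) ≤ max (f j + c) (g j) := max_le_max (by omega) h2
      omega

theorem Om_lcF (r : Fin n → Fin n → Prop) (N : ℕ) (q : Fin n) (a b t : ℤ) (hab : a ≤ b)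
    (ht : 0 ≤ t) :
    cdf (Om r N) q (a - t) * cdf (Om r N) q b ≤ cdf (Om r N) q a * cdf (Om r N) q (b - t) := by
  unfold cdf
  rw [mul_comm (pr (Om r N) fun f => f q < a)]
  refine pr_daykin r N (b - a) (by omega) _ _ _ _ ?_ ?_
  · intro f g hf hg
    exact lt_of_le_of_lt (min_le_left _ _) (by omega)
  · intro f g hf hg
    have : max (f q + (b - a)) (g q) < b := max_lt (by omega) (by omega)
    show max (f q + (b - a)) (g q) - (b - a) < a
    omega

theorem Om_lcG (r : Fin n → Fin n → Prop) (N : ℕ) (hO : (Om r N).Nonempty) (q : Fin n)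
    (a b t : ℤ) (hab : a ≤ b) (ht : 0 ≤ t) :
    (1 - cdf (Om r N) q (b + t)) * (1 - cdf (Om r N) q a) ≤
      (1 - cdf (Om r N) q b) * (1 - cdf (Om r N) q (a + t)) := by
  unfold cdf
  rw [← pr_compl _ hO, ← pr_compl _ hO, ← pr_compl _ hO, ← pr_compl _ hO,
    mul_comm (pr (Om r N) fun f => ¬ f q < b + t)]
  refine pr_daykin r N (b - a) (by omega) _ _ _ _ ?_ ?_
  · intro f g hf hg
    have : b ≤ min (f q + (b - a)) (g q) := le_min (by omega) (by omega)
    show ¬ min (f q + (b - a)) (g q) < b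
    omega
  · intro f g hf hg
    have := le_max_right (f q + (b - a)) (g q)
    show ¬ max (f q + (b - a)) (g q) - (b - a) < a + t
    omega

theorem pr_le_one {α : Type*} (O : Finset α) (p : α → Prop) : pr O p ≤ 1 := by
  classical
  unfold pr
  refine div_le_one_of_le₀ ?_ (by positivity)
  exact_mod_cast Finset.card_filter_le _ _

theorem pr_nonneg {α : Type*} (O : Finset α) (p : α → Prop) : 0 ≤ pr O p := by
  classical
  unfold pr
  positivity

theorem Om_assoc (r : Fin n → Fin n → Prop) (N : ℕ) (i j : Fin n) (u v : ℤ) :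
    cdf (Om r N) i u * cdf (Om r N) j v ≤ pr (Om r N) (fun f => f i < u ∧ f j < v) := by
  unfold cdf
  have h : pr (Om r N) (fun f => f i < u) * pr (Om r N) (fun f => f j < v) ≤
      pr (Om r N) (fun f => f i < u ∧ f j < v) * pr (Om r N) (fun _ => True) := by
    refine pr_daykin r N 0 le_rfl _ _ _ _ ?_ ?_
    · intro f g hf hg
      exact ⟨lt_of_le_of_lt (min_le_left _ _) (by omega), lt_of_le_of_lt (min_le_right _ _) hg⟩
    · intro f g hf hg
      trivial
  refine h.trans ?_
  have h1 := pr_le_one (Om r N) (fun _ => True)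
  have h0 := pr_nonneg (Om r N) (fun f => f i < u ∧ f j < v)
  nlinarith

end Pool.Agent.Helper23.KS
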