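import Mathlib
import Pool.Agent.Helper23.KS.Daykin

set_option autoImplicit false

/-!
# Elementary facts on `pr` and expectations
-/

namespace Pool.Agent.Helper23.KS

variable {α : Type*}

/-- Expectation. -/
noncomputable def ex (O : Finset α) (s : α → ℝ) : ℝ := (∑ x ∈ O, s x) / (O.card : ℝ)

theorem ex_ind (O : Finset α) (p : α → Prop) [DecidablePred p] :
    ex O (fun x => if p x then 1 else 0) = pr O p := by
  rw [pr_eq_sum, ex, Finset.sum_div]

theorem ex_mono (O : Finset α) {s t : α → ℝ} (h : ∀ x ∈ O, s x ≤ t x) : ex O s ≤ ex O t := by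
  unfold ex
  exact div_le_div_of_nonneg_right (Finset.sum_le_sum h) (by positivity)

theorem ex_congr (O : Finset α) {s t : α → ℝ} (h : ∀ x ∈ O, s x = t x) : ex O s = ex O t := by
  unfold ex
  rw [Finset.sum_congr rfl h]

theorem ex_add (O : Finset α) (s t : α → ℝ) : ex O (fun x => s x + t x) = ex O s + ex O t := by
  unfold ex
  rw [Finset.sum_add_distrib, add_div]

theorem ex_sub (O : Finset α) (s t : α → ℝ) : ex O (fun x => s x - t x) = ex O s - ex O t := by
  unfold ex
  rw [Finset.sum_sub_distrib, sub_div]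

theorem ex_const_mul (O : Finset α) (c : ℝ) (s : α → ℝ) :
    ex O (fun x => c * s x) = c * ex O s := by
  unfold ex
  rw [← Finset.mul_sum, mul_div_assoc]

theorem ex_sum {ι : Type*} (O : Finset α) (A : Finset ι) (s : ι → α → ℝ) :
    ex O (fun x => ∑ i ∈ A, s i x) = ∑ i ∈ A, ex O (s i) := by
  unfold ex
  rw [Finset.sum_comm, Finset.sum_div]

theorem ex_const (O : Finset α) (hO : O.Nonempty) (c : ℝ) : ex O (fun _ => c) = c := by
  have hpos : (0 : ℝ) < O.card := by exact_mod_cast hO.card_pos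
  unfold ex
  rw [Finset.sum_const, nsmul_eq_mul, mul_comm, mul_div_assoc, div_self hpos.ne', mul_one]

theorem ex_nonneg (O : Finset α) {s : α → ℝ} (h : ∀ x ∈ O, 0 ≤ s x) : 0 ≤ ex O s := by
  unfold ex
  exact div_nonneg (Finset.sum_nonneg h) (by positivity)

theorem ex_mul_sq_le (O : Finset α) (s t : α → ℝ) :
    (ex O (fun x => s x * t x)) ^ 2 ≤ ex O (fun x => s x ^ 2) * ex O (fun x => t x ^ 2) := by
  unfold ex
  rw [div_pow, div_mul_div_comm, ← sq]
  exact div_le_div_of_nonneg_right (Finset.sum_mul_sq_le_sq_mul_sq _ _ _) (by positivity)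

theorem pr_mono (O : Finset α) {p q : α → Prop} (h : ∀ x ∈ O, p x → q x) : pr O p ≤ pr O q := by
  classical
  rw [← ex_ind, ← ex_ind]
  refine ex_mono O fun x hx => ?_
  by_cases hp : p x
  · simp [hp, h x hx hp]
  · simp only [hp, if_false]; split_ifs <;> norm_num

theorem pr_congr (O : Finset α) {p q : α → Prop} (h : ∀ x ∈ O, p x ↔ q x) : pr O p = pr O q :=
  le_antisymm (pr_mono O fun x hx => (h x hx).1) (pr_mono O fun x hx => (h x hx).2)

theorem pr_or_le (O : Finset α) (p q : α → Prop) :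
    pr O (fun x => p x ∨ q x) ≤ pr O p + pr O q := by
  classical
  rw [← ex_ind, ← ex_ind, ← ex_ind, ← ex_add]
  refine ex_mono O fun x hx => ?_
  by_cases hp : p x <;> by_cases hq : q x <;> simp [hp, hq]

theorem pr_and_not (O : Finset α) (p q : α → Prop) :
    pr O (fun x => p x ∧ ¬ q x) = pr O p - pr O (fun x => p x ∧ q x) := by
  classical
  rw [← ex_ind, ← ex_ind, ← ex_ind, ← ex_sub]
  refine ex_congr O fun x hx => ?_
  by_cases hp : p x <;> by_cases hq : q x <;> simp [hp, hq]

theorem pr_true (O : Finset α) (hO : O.Nonempty) {p : α → Prop} (h : ∀ x ∈ O, p x) :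
    pr O p = 1 := by
  classical
  rw [← ex_ind]
  refine Eq.trans ?_ (ex_const O hO 1)
  refine ex_congr O fun x hx => ?_
  simp [h x hx]

theorem pr_false (O : Finset α) {p : α → Prop} (h : ∀ x ∈ O, ¬ p x) :
    pr O p = 0 := by
  classical
  rw [← ex_ind]
  unfold ex
  rw [Finset.sum_eq_zero, zero_div]
  intro x hx
  simp [h x hx]

theorem pr_three (O : Finset α) (hO : O.Nonempty) (X Y : α → ℕ) :
    pr O (fun w => X w < Y w) + pr O (fun w => Y w < X w) + pr O (fun w => X w = Y w) = 1 := by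
  classical
  rw [← ex_ind, ← ex_ind, ← ex_ind, ← ex_add, ← ex_add]
  refine Eq.trans ?_ (ex_const O hO 1)
  refine ex_congr O fun x hx => ?_
  rcases lt_trichotomy (X x) (Y x) with h | h | h
  · simp [h, h.ne, not_lt.2 h.le]
  · simp [h]
  · simp [h, h.ne', not_lt.2 h.le]

variable {n N : ℕ} {O : Finset (Fin n → ℤ)}

theorem cdf_mono (O : Finset (Fin n → ℤ)) (q : Fin n) {u v : ℤ} (h : u ≤ v) :
    cdf O q u ≤ cdf O q v :=
  pr_mono O fun _ _ hx => lt_of_lt_of_le hx h

theorem cdf_nonneg (O : Finset (Fin n → ℤ)) (q : Fin n) (u : ℤ) : 0 ≤ cdf O q u := pr_nonneg _ _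

theorem cdf_le_one (O : Finset (Fin n → ℤ)) (q : Fin n) (u : ℤ) : cdf O q u ≤ 1 := pr_le_one _ _

end Pool.Agent.Helper23.KS
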