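import Mathlib
import Pool.Agent.Helper23.KS.Basic

set_option autoImplicit false

/-!
# Quartiles, exponential tails, anticoncentration, counting
-/

namespace Pool.Agent.Helper23.KS

variable {n N : ℕ} {O : Finset (Fin n → ℤ)} {g e : ℝ}

theorem cdf_zero (M : Model N O g e) (q : Fin n) (u : ℤ) (hu : u ≤ 0) : cdf O q u = 0 := by
  refine pr_false O fun f hf => ?_
  have := (M.range f hf q).1
  show ¬ f q < u
  omega

theorem cdf_one (M : Model N O g e) (q : Fin n) (u : ℤ) (hu : N ≤ u) : cdf O q u = 1 := by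
  refine pr_true O M.nonempty fun f hf => ?_
  have := (M.range f hf q).2
  show f q < u
  omega

/-- Quartile points. -/
structure Quart (O : Finset (Fin n → ℤ)) (q : Fin n) (a b : ℤ) : Prop where
  a_le : cdf O q a ≤ 1 / 4
  lt_a : 1 / 4 < cdf O q (a + 1)
  b_lt : cdf O q (b - 1) < 3 / 4
  le_b : 3 / 4 ≤ cdf O q b

theorem exists_quart (M : Model N O g e) (q : Fin n) : ∃ a b : ℤ, Quart O q a b := by
  classical
  have h1 : ∃ k : ℕ, 1 / 4 < cdf O q k := ⟨N, by
    rw [cdf_one M q _ le_rfl]; norm_num⟩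
  have h2 : ∃ k : ℕ, 3 / 4 ≤ cdf O q k := ⟨N, by
    rw [cdf_one M q _ le_rfl]; norm_num⟩
  have p1 : 0 < Nat.find h1 := by
    rw [Nat.find_pos]
    rw [cdf_zero M q _ (by simp)]
    norm_num
  have p2 : 0 < Nat.find h2 := by
    rw [Nat.find_pos]
    rw [cdf_zero M q _ (by simp)]
    norm_num
  refine ⟨(Nat.find h1 : ℤ) - 1, Nat.find h2, ?_, ?_, ?_, ?_⟩
  · have := Nat.find_min h1 (m := Nat.find h1 - 1) (by omega)
    have e : ((Nat.find h1 - 1 : ℕ) : ℤ) = (Nat.find h1 : ℤ) - 1 := by omega
    rw [e] at this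
    exact not_lt.1 this
  · have := Nat.find_spec h1
    simpa using this
  · have := Nat.find_min h2 (m := Nat.find h2 - 1) (by omega)
    have e : ((Nat.find h2 - 1 : ℕ) : ℤ) = (Nat.find h2 : ℤ) - 1 := by omega
    rw [e] at this
    exact not_le.1 this
  · exact Nat.find_spec h2

namespace Quart

variable {q : Fin n} {a b : ℤ}

theorem lt (h : Quart O q a b) : a < b := by
  by_contra hcon
  have := cdf_mono O q (not_lt.1 hcon)
  linarith [h.a_le, h.le_b]

theorem a_nonneg (h : Quart O q a b) (M : Model N O g e) : 0 ≤ a := by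
  by_contra hcon
  have := h.lt_a
  rw [cdf_zero M q (a + 1) (by omega)] at this
  norm_num at this

theorem b_le (h : Quart O q a b) (M : Model N O g e) : b ≤ N := by
  by_contra hcon
  have := h.b_lt
  rw [cdf_one M q (b - 1) (by omega)] at this
  norm_num at this

theorem le_a_of (h : Quart O q a b) {u : ℤ} (hu : cdf O q u ≤ 1 / 4) : u ≤ a := by
  by_contra hcon
  have := cdf_mono O q (show a + 1 ≤ u by omega)
  linarith [h.lt_a]

theorem b_le_of (h : Quart O q a b) {u : ℤ} (hu : 3 / 4 ≤ cdf O q u) : b ≤ u := by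
  by_contra hcon
  have := cdf_mono O q (show u ≤ b - 1 by omega)
  linarith [h.b_lt]

theorem tailF (h : Quart O q a b) (M : Model N O g e) (j : ℕ) :
    cdf O q (a - j * (b - a)) ≤ (1 / 3) ^ j / 4 := by
  induction j with
  | zero => have := h.a_le; simpa using this
  | succ j ih =>
    have hs : 0 < b - a := by have := h.lt; omega
    have hj : 0 ≤ (j : ℤ) * (b - a) := by positivity
    have h1 := M.lcF q (a - j * (b - a)) b (b - a) (by linarith) hs.le
    have e1 : a - (j : ℤ) * (b - a) - (b - a) = a - ((j + 1 : ℕ) : ℤ) * (b - a) := by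
      push_cast; ring
    have e2 : b - (b - a) = a := by ring
    rw [e1, e2] at h1
    have h2 := h.a_le
    have h3 := h.le_b
    have h4 := cdf_nonneg O q (a - ((j + 1 : ℕ) : ℤ) * (b - a))
    have h5 := cdf_nonneg O q (a - (j : ℤ) * (b - a))
    rw [pow_succ]
    nlinarith

theorem tailG (h : Quart O q a b) (M : Model N O g e) (j : ℕ) :
    1 - cdf O q (b + j * (b - a)) ≤ (1 / 3) ^ j / 4 := by
  induction j with
  | zero => have := h.le_b; simp; linarith
  | succ j ih =>
    have hs : 0 < b - a := by have := h.lt; omega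
    have hj : 0 ≤ (j : ℤ) * (b - a) := by positivity
    have h1 := M.lcG q a (b + j * (b - a)) (b - a) (by linarith) hs.le
    have e1 : b + (j : ℤ) * (b - a) + (b - a) = b + ((j + 1 : ℕ) : ℤ) * (b - a) := by
      push_cast; ring
    have e2 : a + (b - a) = b := by ring
    rw [e1, e2] at h1
    have h2 := h.a_le
    have h3 := h.le_b
    have h4 := cdf_le_one O q (b + ((j + 1 : ℕ) : ℤ) * (b - a))
    have h5 := cdf_le_one O q (b + (j : ℤ) * (b - a))
    rw [pow_succ]
    nlinarith

/-- Anticoncentration: a short interval of mass `≥ ρ` forces a small interquartile range. -/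
theorem anticonc (h : Quart O q a b) (M : Model N O g e) (ρ : ℝ) (hρ : 0 < ρ) (hρ1 : ρ ≤ 1)
    (J : ℕ) (hJ : (1 - ρ) ^ J ≤ 1 / 4) (u v : ℤ) (huv : u ≤ v)
    (hm : ρ ≤ cdf O q v - cdf O q u) : b - a ≤ (2 * J) * (v - u) := by
  set w := v - u with hw
  have hw0 : 0 ≤ w := by omega
  have hv : ρ ≤ cdf O q v := by linarith [cdf_nonneg O q u]
  have hu : ρ ≤ 1 - cdf O q u := by linarith [cdf_le_one O q v]
  have h1 : ∀ j : ℕ, cdf O q (v - j * w) ≤ (1 - ρ) ^ j := by
    intro j
    induction j with
    | zero => simpa using cdf_le_one O q v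
    | succ j ih =>
      have hj : 0 ≤ (j : ℤ) * w := by positivity
      have h1 := M.lcF q (v - j * w) v w (by linarith) hw0
      have e1 : v - (j : ℤ) * w - w = v - ((j + 1 : ℕ) : ℤ) * w := by push_cast; ring
      have e2 : v - w = u := by rw [hw]; ring
      rw [e1, e2] at h1
      have h5 := cdf_nonneg O q (v - (j : ℤ) * w)
      have h6 : cdf O q u ≤ (1 - ρ) * cdf O q v := by
        have := cdf_le_one O q v
        nlinarith
      have h7 : cdf O q (v - ((j + 1 : ℕ) : ℤ) * w) * cdf O q v ≤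
          ((1 - ρ) * cdf O q (v - (j : ℤ) * w)) * cdf O q v := by
        refine h1.trans ?_
        calc cdf O q (v - (j : ℤ) * w) * cdf O q u ≤
            cdf O q (v - (j : ℤ) * w) * ((1 - ρ) * cdf O q v) :=
              mul_le_mul_of_nonneg_left h6 h5
          _ = _ := by ring
      have h8 := le_of_mul_le_mul_right h7 (lt_of_lt_of_le hρ hv)
      refine h8.trans ?_
      rw [pow_succ]
      have h9 : 0 ≤ 1 - ρ := by linarith
      nlinarith
  have h2 : ∀ j : ℕ, 1 - cdf O q (u + j * w) ≤ (1 - ρ) ^ j := by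
    intro j
    induction j with
    | zero => simpa using cdf_nonneg O q u
    | succ j ih =>
      have hj : 0 ≤ (j : ℤ) * w := by positivity
      have h1 := M.lcG q u (u + j * w) w (by linarith) hw0
      have e1 : u + (j : ℤ) * w + w = u + ((j + 1 : ℕ) : ℤ) * w := by push_cast; ring
      have e2 : u + w = v := by rw [hw]; ring
      rw [e1, e2] at h1
      have h5 := cdf_le_one O q (u + (j : ℤ) * w)
      have h6 : 1 - cdf O q v ≤ (1 - ρ) * (1 - cdf O q u) := by
        have := cdf_nonneg O q u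
        nlinarith
      have h7 : (1 - cdf O q (u + ((j + 1 : ℕ) : ℤ) * w)) * (1 - cdf O q u) ≤
          ((1 - ρ) * (1 - cdf O q (u + (j : ℤ) * w))) * (1 - cdf O q u) := by
        refine h1.trans ?_
        calc (1 - cdf O q (u + (j : ℤ) * w)) * (1 - cdf O q v) ≤
            (1 - cdf O q (u + (j : ℤ) * w)) * ((1 - ρ) * (1 - cdf O q u)) :=
              mul_le_mul_of_nonneg_left h6 (by linarith)
          _ = _ := by ring
      have h8 := le_of_mul_le_mul_right h7 (lt_of_lt_of_le hρ hu)
      refine h8.trans ?_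
      rw [pow_succ]
      have h9 : 0 ≤ 1 - ρ := by linarith
      nlinarith
  have h3 := h.le_a_of ((h1 J).trans hJ)
  have h4 := h.b_le_of (u := u + J * w) (by linarith [h2 J])
  have h5 : b - a ≤ 2 * (J * w) - w := by
    have : v = u + w := by rw [hw]; ring
    linarith
  have h6 : (2 * (J : ℤ)) * w = 2 * (J * w) := by ring
  rw [h6]
  omega

end Quart

/-- Number of the elements whose quartiles are in a given interval. -/
theorem count_le (M : Model N O g 1) (a b : Fin n → ℤ) (hq : ∀ q, Quart O q (a q) (b q))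
    (m L : ℤ) (hm0 : 0 ≤ m) (hmN : m ≤ N) (hL : 0 ≤ L) (S : Finset (Fin n))
    (hS : ∀ q ∈ S, m - L ≤ a q ∧ b q ≤ m + L) :
    (S.card : ℝ) ≤ 4 * ((n : ℝ) / N) * L + 4 := by
  have h1 := M.mean_le (m + L) (by omega)
  have h2 := M.le_mean (m - L) (by omega)
  have h3 : ∑ q ∈ S, (1 / 2 : ℝ) ≤ ∑ q, (cdf O q (m + L) - cdf O q (m - L)) := by
    refine le_trans (Finset.sum_le_sum (g := fun q => cdf O q (m + L) - cdf O q (m - L)) ?_)
      (Finset.sum_le_sum_of_subset_of_nonneg (Finset.subset_univ _) ?_)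
    · intro q hqS
      have h4 := cdf_mono O q (hS q hqS).1
      have h5 := cdf_mono O q (hS q hqS).2
      have := (hq q).a_le
      have := (hq q).le_b
      linarith
    · intro q _ _
      exact sub_nonneg.2 (cdf_mono O q (by omega))
  rw [Finset.sum_const, nsmul_eq_mul, Finset.sum_sub_distrib] at h3
  push_cast at h1 h2
  linarith

end Pool.Agent.Helper23.KS
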