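import Mathlib
import Pool.Agent.Helper23.KS.Tails

set_option autoImplicit false

/-!
# The contribution of the far elements
-/

namespace Pool.Agent.Helper23.KS

variable {n N : ℕ} {O : Finset (Fin n → ℤ)} {g : ℝ}

/-- Distance from `m` to the interquartile interval. -/
def dist' (a b : Fin n → ℤ) (m : ℤ) (q : Fin n) : ℤ := max (max (a q - m) (m - b q)) 0

theorem dist'_interval (a b : Fin n → ℤ) (m : ℤ) (q : Fin n) (h : a q < b q) :
    m - (dist' a b m q + (b q - a q)) ≤ a q ∧ b q ≤ m + (dist' a b m q + (b q - a q)) := by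
  unfold dist'
  constructor <;> omega

theorem dist'_nonneg (a b : Fin n → ℤ) (m : ℤ) (q : Fin n) : 0 ≤ dist' a b m q :=
  le_max_right _ _

theorem win_pr (M : Model N O g 1) (a b : Fin n → ℤ) (hq : ∀ q, Quart O q (a q) (b q)) (m w : ℤ)
    (hw : 0 ≤ w) (q : Fin n) (j : ℕ) (hj : j * (b q - a q) ≤ dist' a b m q - w) :
    cdf O q (m + w) - cdf O q (m - w) ≤ (1 / 3) ^ j := by
  have hlt := (hq q).lt
  have hj0 : 0 ≤ (j : ℤ) * (b q - a q) := mul_nonneg (by positivity) (by omega)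
  have hpow : (0 : ℝ) < (1 / 3) ^ j := by positivity
  rcases Nat.eq_zero_or_pos j with h0 | hpos
  · subst h0
    have := cdf_le_one O q (m + w)
    have := cdf_nonneg O q (m - w)
    simp only [pow_zero]
    linarith
  · have hj1 : 1 ≤ (j : ℤ) * (b q - a q) := by
      have h1 : (1 : ℤ) ≤ j := by exact_mod_cast hpos
      nlinarith
    have hd : 0 < dist' a b m q := by omega
    unfold dist' at hj hd
    rcases le_total (a q - m) (m - b q) with h | h
    · -- the element is on the left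
      have h1 : b q + j * (b q - a q) ≤ m - w := by
        rw [max_eq_right h, max_eq_left (by omega)] at hj
        linarith
      have h2 := (hq q).tailG M j
      have h3 := cdf_mono O q h1
      have := cdf_le_one O q (m + w)
      linarith
    · have h1 : m + w ≤ a q - j * (b q - a q) := by
        rw [max_eq_left h, max_eq_left (by omega)] at hj
        linarith
      have h2 := (hq q).tailF M j
      have h3 := cdf_mono O q h1
      have := cdf_nonneg O q (m - w)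
      linarith

theorem pow_four_le (j : ℕ) : ((j : ℝ) + 1) ^ 4 ≤ 10 * 3 ^ j := by
  rcases Nat.lt_or_ge j 3 with h | h
  · interval_cases j <;> norm_num
  · induction j, h using Nat.le_induction with
    | base => norm_num
    | succ k hk ih =>
      have h3 : (3 : ℝ) ≤ k := by exact_mod_cast hk
      push_cast
      have h1 : ((k : ℝ) + 1 + 1) ^ 4 ≤ 3 * ((k : ℝ) + 1) ^ 4 := by
        have h4 : ((k : ℝ) + 1 + 1) ≤ (5 / 4) * ((k : ℝ) + 1) := by linarith
        have h5 : ((k : ℝ) + 1 + 1) ^ 4 ≤ ((5 / 4) * ((k : ℝ) + 1)) ^ 4 := by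
          gcongr
        have h6 : (0 : ℝ) ≤ ((k : ℝ) + 1) ^ 4 := by positivity
        nlinarith
      calc ((k : ℝ) + 1 + 1) ^ 4 ≤ 3 * ((k : ℝ) + 1) ^ 4 := h1
        _ ≤ 3 * (10 * 3 ^ k) := by linarith
        _ = 10 * 3 ^ (k + 1) := by ring

theorem far_pr (M : Model N O g 1) (a b : Fin n → ℤ) (hq : ∀ q, Quart O q (a q) (b q)) (m w : ℤ)
    (hw : 0 ≤ w) (q : Fin n) (σ : ℤ) (hd : 0 < dist' a b m q) (hwd : 2 * w ≤ dist' a b m q)
    (hs : (b q - a q) ^ 2 ≤ 3 * σ * dist' a b m q) :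
    cdf O q (m + w) - cdf O q (m - w) ≤ 1440 * ((σ : ℝ) ^ 2 / (dist' a b m q : ℝ) ^ 2) := by
  set d := dist' a b m q with hdd
  set s := b q - a q with hss
  have hspos : 0 < s := by have := (hq q).lt; omega
  set j := ((d - w) / s).toNat with hj
  have hdiv0 : 0 ≤ (d - w) / s := Int.ediv_nonneg (by omega) hspos.le
  have hjc : (j : ℤ) = (d - w) / s := by rw [hj]; exact Int.toNat_of_nonneg hdiv0
  have h1 : (j : ℤ) * s ≤ d - w := by
    rw [hjc]; exact Int.ediv_mul_le _ hspos.ne'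
  have h2 : d - w < ((j : ℤ) + 1) * s := by
    rw [hjc]; exact Int.lt_ediv_add_one_mul_self _ hspos
  have h3 := win_pr M a b hq m w hw q j (by rw [← hdd, ← hss]; exact h1)
  have hdR : (0 : ℝ) < d := by exact_mod_cast hd
  have hsR : (0 : ℝ) < s := by exact_mod_cast hspos
  have h4 : (d : ℝ) / 2 ≤ ((j : ℝ) + 1) * s := by
    have e1 : d ≤ 2 * (((j : ℤ) + 1) * s) := by linarith
    have e2 : (d : ℝ) ≤ 2 * (((j : ℝ) + 1) * s) := by exact_mod_cast e1
    linarith
  have h5 : ((d : ℝ) / 2) ^ 4 ≤ (((j : ℝ) + 1) * s) ^ 4 := by gcongr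
  have h6 : (s : ℝ) ^ 2 ≤ 3 * σ * d := by exact_mod_cast hs
  have h7 : (s : ℝ) ^ 4 ≤ (3 * σ * d) ^ 2 := by
    have : (s : ℝ) ^ 4 = (s ^ 2) ^ 2 := by ring
    rw [this]
    gcongr
  have h8 := pow_four_le j
  -- combine
  have h9 : (d : ℝ) ^ 4 ≤ 16 * (10 * 3 ^ j) * (9 * σ ^ 2 * d ^ 2) := by
    have e1 : (d : ℝ) ^ 4 = 16 * ((d : ℝ) / 2) ^ 4 := by ring
    have e2 : (((j : ℝ) + 1) * s) ^ 4 = ((j : ℝ) + 1) ^ 4 * s ^ 4 := by ring
    have e3 : ((j : ℝ) + 1) ^ 4 * s ^ 4 ≤ (10 * 3 ^ j) * (3 * σ * d) ^ 2 :=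
      mul_le_mul h8 h7 (by positivity) (by positivity)
    have e4 : (3 * (σ : ℝ) * d) ^ 2 = 9 * σ ^ 2 * d ^ 2 := by ring
    rw [e4] at e3
    rw [e1]
    nlinarith
  have h10 : (d : ℝ) ^ 2 ≤ 1440 * 3 ^ j * σ ^ 2 := by
    have e1 : (d : ℝ) ^ 2 * d ^ 2 ≤ (1440 * 3 ^ j * σ ^ 2) * d ^ 2 := by nlinarith
    exact le_of_mul_le_mul_right e1 (by positivity)
  have h11 : ((1 : ℝ) / 3) ^ j ≤ 1440 * ((σ : ℝ) ^ 2 / (d : ℝ) ^ 2) := by
    rw [← mul_div_assoc, le_div_iff₀ (by positivity), one_div, inv_pow, inv_mul_le_iff₀ (by positivity)]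
    linarith
  linarith

theorem geom_half (K : ℕ) : ∑ k ∈ Finset.range K, ((1 : ℝ) / 2) ^ k ≤ 2 := by
  have : ∀ K : ℕ, ∑ k ∈ Finset.range K, ((1 : ℝ) / 2) ^ k = 2 - 2 * (1 / 2) ^ K := by
    intro K
    induction K with
    | zero => norm_num
    | succ K ih => rw [Finset.sum_range_succ, ih, pow_succ]; ring
  rw [this]
  have : (0 : ℝ) < (1 / 2) ^ K := by positivity
  linarith

/-- The total contribution of the far elements. -/
theorem far_sum (M : Model N O g 1) (a b : Fin n → ℤ) (hq : ∀ q, Quart O q (a q) (b q)) (m w : ℤ)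
    (hm0 : 0 ≤ m) (hmN : m ≤ N)
    (hw : 0 ≤ w) (σ R : ℤ) (hσ : 0 < σ) (hR : 3 ≤ R) (hwR : 2 * w ≤ R * σ) (S : Finset (Fin n))
    (hS : ∀ q ∈ S, R * σ ≤ dist' a b m q ∧ (b q - a q) ^ 2 ≤ 3 * σ * dist' a b m q)
    (hν : 1 ≤ ((n : ℝ) / N) * σ) :
    ∑ q ∈ S, (cdf O q (m + w) - cdf O q (m - w)) ≤ 57600 * (((n : ℝ) / N) * σ / R) := by
  set ν : ℝ := (n : ℝ) / N with hνdef
  have hRσ : 0 < R * σ := by positivity
  set κ : Fin n → ℕ := fun q => Nat.log 2 (dist' a b m q / (R * σ)).toNat with hκ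
  have hκ1 : ∀ q ∈ S, 2 ^ (κ q) * (R * σ) ≤ dist' a b m q ∧
      dist' a b m q < 2 ^ (κ q + 1) * (R * σ) := by
    intro q hqS
    have h1 := (hS q hqS).1
    have h2 : 1 ≤ dist' a b m q / (R * σ) := by
      rw [Int.le_ediv_iff_mul_le hRσ]; linarith
    set z := (dist' a b m q / (R * σ)).toNat with hz
    have hzc : (z : ℤ) = dist' a b m q / (R * σ) := Int.toNat_of_nonneg (by omega)
    have hz1 : z ≠ 0 := by omega
    have h3 : 2 ^ (κ q) ≤ z := Nat.pow_log_le_self 2 hz1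
    have h4 : z < 2 ^ (κ q + 1) := Nat.lt_pow_succ_log_self (by norm_num) z
    constructor
    · have : ((2 ^ (κ q) : ℕ) : ℤ) ≤ z := by exact_mod_cast h3
      rw [hzc, Int.le_ediv_iff_mul_le hRσ] at this
      push_cast at this
      exact this
    · have : (z : ℤ) < ((2 ^ (κ q + 1) : ℕ) : ℤ) := by exact_mod_cast h4
      rw [hzc, Int.ediv_lt_iff_lt_mul hRσ] at this
      push_cast at this
      exact this
  obtain ⟨K, hK⟩ : ∃ K, ∀ q ∈ S, κ q < K := by
    refine ⟨(S.sup κ) + 1, fun q hqS => Nat.lt_succ_of_le (Finset.le_sup hqS)⟩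
  rw [← Finset.sum_fiberwise_of_maps_to (s := S) (t := Finset.range K) (g := κ)
    (fun q hqS => Finset.mem_range.2 (hK q hqS))]
  have hRR : (0 : ℝ) < R := by exact_mod_cast (show (0 : ℤ) < R by omega)
  have hσR : (0 : ℝ) < σ := by exact_mod_cast hσ
  have hlevel : ∀ k ∈ Finset.range K, ∑ q ∈ S with κ q = k,
      (cdf O q (m + w) - cdf O q (m - w)) ≤ (28800 * (ν * σ / R)) * (1 / 2) ^ k := by
    intro k _
    have hpr : ∀ q ∈ S.filter (fun q => κ q = k), cdf O q (m + w) - cdf O q (m - w) ≤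
        1440 / ((2 ^ k) ^ 2 * (R : ℝ) ^ 2) := by
      intro q hqS
      rw [Finset.mem_filter] at hqS
      obtain ⟨hqS, hqk⟩ := hqS
      have h1 := hκ1 q hqS
      rw [hqk] at h1
      have h2 := hS q hqS
      have h3 := far_pr M a b hq m w hw q σ (by linarith) (by linarith) h2.2
      refine h3.trans ?_
      have h4 : ((2 : ℝ) ^ k * (R * σ)) ≤ (dist' a b m q : ℝ) := by exact_mod_cast h1.1
      have h5 : (0 : ℝ) < (2 : ℝ) ^ k * (R * σ) := by positivity
      have h6 : ((2 : ℝ) ^ k * (R * σ)) ^ 2 ≤ (dist' a b m q : ℝ) ^ 2 := by gcongr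
      calc 1440 * ((σ : ℝ) ^ 2 / (dist' a b m q : ℝ) ^ 2) ≤
          1440 * ((σ : ℝ) ^ 2 / ((2 : ℝ) ^ k * (R * σ)) ^ 2) := by gcongr
        _ = _ := by field_simp
    have hcount : ((S.filter (fun q => κ q = k)).card : ℝ) ≤ 16 * ν * (2 ^ k * (R * σ)) + 4 := by
      have hL0 : (0 : ℤ) ≤ 4 * (2 ^ k * (R * σ)) := by positivity
      have := count_le M a b hq m (4 * (2 ^ k * (R * σ))) hm0 hmN hL0
        (S.filter (fun q => κ q = k)) (by
          intro q hqS
          rw [Finset.mem_filter] at hqS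
          obtain ⟨hqS, hqk⟩ := hqS
          have h1 := hκ1 q hqS
          rw [hqk, pow_succ] at h1
          have h2 := hS q hqS
          have hlt := (hq q).lt
          have h3 := dist'_interval a b m q hlt
          have h4 : b q - a q ≤ dist' a b m q := by
            have e1 : 3 * σ * dist' a b m q ≤ dist' a b m q ^ 2 := by
              have : 3 * σ ≤ dist' a b m q := by nlinarith
              nlinarith
            exact le_of_sq_le_sq (by linarith) (dist'_nonneg a b m q)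
          constructor <;> linarith)
      push_cast at this
      linarith
    have h0 : (0 : ℝ) ≤ 1440 / ((2 ^ k) ^ 2 * (R : ℝ) ^ 2) := by positivity
    calc ∑ q ∈ S with κ q = k, (cdf O q (m + w) - cdf O q (m - w))
        ≤ ∑ _q ∈ S with κ _q = k, 1440 / ((2 ^ k) ^ 2 * (R : ℝ) ^ 2) := Finset.sum_le_sum hpr
      _ = ((S.filter (fun q => κ q = k)).card : ℝ) * (1440 / ((2 ^ k) ^ 2 * (R : ℝ) ^ 2)) := by
          rw [Finset.sum_const, nsmul_eq_mul]
      _ ≤ (16 * ν * (2 ^ k * (R * σ)) + 4) * (1440 / ((2 ^ k) ^ 2 * (R : ℝ) ^ 2)) :=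
          mul_le_mul_of_nonneg_right hcount h0
      _ ≤ (20 * (ν * σ) * (2 ^ k * R)) * (1440 / ((2 ^ k) ^ 2 * (R : ℝ) ^ 2)) := by
          refine mul_le_mul_of_nonneg_right ?_ h0
          have h1 : (1 : ℝ) ≤ 2 ^ k * R := by
            have h2 : (1 : ℝ) ≤ 2 ^ k := one_le_pow₀ (by norm_num)
            have h3 : (1 : ℝ) ≤ R := by exact_mod_cast (show (1 : ℤ) ≤ R by omega)
            nlinarith
          have h4 : (1 : ℝ) ≤ (ν * σ) * (2 ^ k * R) := by nlinarith
          nlinarith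
      _ = (28800 * (ν * σ / R)) * (1 / 2) ^ k := by
          have : ((1 : ℝ) / 2) ^ k = 1 / 2 ^ k := by rw [div_pow, one_pow]
          rw [this]
          field_simp
          ring
  refine (Finset.sum_le_sum hlevel).trans ?_
  rw [← Finset.mul_sum]
  have h1 := geom_half K
  have h2 : (0 : ℝ) ≤ 28800 * (ν * σ / R) := by
    have : 0 ≤ ν * σ := by linarith
    positivity
  nlinarith

end Pool.Agent.Helper23.KS
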