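import Mathlib
import Pool.Agent.Helper23.KS.Basic

set_option autoImplicit false

/-!
# The number of spread elements

Elements which are spread over the same bounded number of cells: two of them which are often in
the same cell have a positive covariance; the sum of the covariances is bounded by a standard
deviation, and the number of pairwise non-close elements is bounded by Komlós's principle.
-/

namespace Pool.Agent.Helper23.KS

open Classical

variable {n N : ℕ} {O : Finset (Fin n → ℤ)} {g e : ℝ}

/-- Covariance of the events `f i < u` and `f j < u`. -/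
noncomputable def cv (O : Finset (Fin n → ℤ)) (i j : Fin n) (u : ℤ) : ℝ :=
  pr O (fun f => f i < u ∧ f j < u) - cdf O i u * cdf O j u

theorem cv_eq (hO : O.Nonempty) (i j : Fin n) (u : ℤ) :
    cv O i j u = ex O (fun f => ((if f i < u then 1 else 0) - cdf O i u) *
      ((if f j < u then 1 else 0) - cdf O j u)) := by
  have h : ∀ f ∈ O, ((if f i < u then (1 : ℝ) else 0) - cdf O i u) *
      ((if f j < u then 1 else 0) - cdf O j u) =
      ((if (f i < u ∧ f j < u) then 1 else 0) + cdf O i u * cdf O j u) -
      (cdf O j u * (if f i < u then 1 else 0) + cdf O i u * (if f j < u then 1 else 0)) := by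
    intro f _
    by_cases h1 : f i < u <;> by_cases h2 : f j < u <;> simp [h1, h2] <;> ring
  rw [ex_congr O h, ex_sub, ex_add, ex_add, ex_const_mul O (cdf O j u),
    ex_const_mul O (cdf O i u) (fun f => if f j < u then 1 else 0), ex_const O hO]
  rw [ex_ind, ex_ind, ex_ind]
  unfold cv cdf
  ring

/-- Cauchy–Schwarz: the covariance of one event with the count is at most the standard
deviation of the count. -/
theorem sum_cv_sq_le (hO : O.Nonempty) (c : Fin n) (u : ℤ) :
    (∑ j, cv O c j u) ^ 2 ≤ ∑ i, ∑ j, cv O i j u := by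
  have h1 : ∑ j, cv O c j u = ex O (fun f => ((if f c < u then 1 else 0) - cdf O c u) *
      ∑ j, ((if f j < u then 1 else 0) - cdf O j u)) := by
    simp only [Finset.mul_sum]
    rw [ex_sum]
    exact Finset.sum_congr rfl fun j _ => cv_eq hO c j u
  have h2 : ∑ i, ∑ j, cv O i j u = ex O (fun f =>
      (∑ j, ((if f j < u then 1 else 0) - cdf O j u)) ^ 2) := by
    simp only [sq, Finset.sum_mul_sum]
    rw [ex_sum]
    refine Finset.sum_congr rfl fun i _ => ?_
    rw [ex_sum]
    exact Finset.sum_congr rfl fun j _ => cv_eq hO i j u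
  rw [h1, h2]
  refine (ex_mul_sq_le O _ _).trans ?_
  have h3 : ex O (fun f => ((if f c < u then (1 : ℝ) else 0) - cdf O c u) ^ 2) ≤ 1 := by
    refine le_trans (ex_mono O (t := fun _ => (1 : ℝ)) ?_) (ex_const O hO 1).le
    intro f _
    have h0 := cdf_nonneg O c u
    have h1 := cdf_le_one O c u
    split_ifs <;> nlinarith
  have h4 : 0 ≤ ex O (fun f => (∑ j, ((if f j < u then (1 : ℝ) else 0) - cdf O j u)) ^ 2) :=
    ex_nonneg O fun _ _ => sq_nonneg _
  nlinarith

theorem cv_nonneg (M : Model N O g e) (i j : Fin n) (u : ℤ) : 0 ≤ cv O i j u := by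
  unfold cv
  linarith [M.assoc i j u u]

/-- The cell index. -/
noncomputable def cell (u : ℕ → ℤ) (m : ℕ) (q : Fin n) (f : Fin n → ℤ) : ℕ :=
  ((Finset.range m).filter (fun k => u k ≤ f q)).card

theorem cell_le (u : ℕ → ℤ) (m : ℕ) (q : Fin n) (f : Fin n → ℤ) : cell u m q f < m + 1 := by
  unfold cell
  refine Nat.lt_succ_of_le ((Finset.card_filter_le _ _).trans ?_)
  simp

theorem cell_mono (u : ℕ → ℤ) (m : ℕ) (i j : Fin n) (f : Fin n → ℤ) (h : f i ≤ f j) :
    cell u m i f ≤ cell u m j f := by
  unfold cell
  refine Finset.card_le_card fun k hk => ?_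
  rw [Finset.mem_filter] at hk ⊢
  exact ⟨hk.1, hk.2.trans h⟩

theorem cell_spec (u : ℕ → ℤ) (hu : Monotone u) (m : ℕ) (q : Fin n) (f : Fin n → ℤ) (k : ℕ)
    (hk : k < m) : u k ≤ f q ↔ k < cell u m q f := by
  -- the set of the indices is a lower set of `range m`
  have hlow : (Finset.range m).filter (fun k => u k ≤ f q) =
      Finset.range (cell u m q f) := by
    have key : ∀ s : Finset ℕ, (∀ a ∈ s, ∀ b, b ≤ a → b ∈ s) → s = Finset.range s.card := by
      intro s hs
      have hsub : s ⊆ Finset.range s.card := by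
        intro a ha
        have : Finset.range (a + 1) ⊆ s := by
          intro b hb
          rw [Finset.mem_range] at hb
          exact hs a ha b (by omega)
        have := Finset.card_le_card this
        rw [Finset.card_range] at this
        rw [Finset.mem_range]; omega
      exact Finset.eq_of_subset_of_card_le hsub (by simp)
    refine key _ ?_
    intro a ha b hb
    rw [Finset.mem_filter, Finset.mem_range] at ha ⊢
    exact ⟨by omega, (hu hb).trans ha.2⟩
  constructor
  · intro h
    have : k ∈ (Finset.range m).filter (fun k => u k ≤ f q) := by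
      rw [Finset.mem_filter, Finset.mem_range]; exact ⟨hk, h⟩
    rw [hlow, Finset.mem_range] at this
    exact this
  · intro h
    have : k ∈ Finset.range (cell u m q f) := by rw [Finset.mem_range]; exact h
    rw [← hlow, Finset.mem_filter] at this
    exact this.2

theorem cell_pos (u : ℕ → ℤ) (hu : Monotone u) (m : ℕ) (hm : 0 < m) (q : Fin n)
    (f : Fin n → ℤ) (h0 : u 0 ≤ f q) : 0 < cell u m q f :=
  (cell_spec u hu m q f 0 hm).1 h0

/-- Indicator of `f q < u`. -/
noncomputable def dd (u : ℤ) (q : Fin n) (f : Fin n → ℤ) : ℝ := if f q < u then 1 else 0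

theorem ex_dd_mul (u v : ℤ) (i j : Fin n) :
    ex O (fun f => dd u i f * dd v j f) = pr O (fun f => f i < u ∧ f j < v) := by
  rw [← ex_ind]
  refine ex_congr O fun f _ => ?_
  unfold dd
  by_cases h1 : f i < u <;> by_cases h2 : f j < v <;> simp [h1, h2]

/-- Close elements have positive covariance. -/
theorem close_cv (M : Model N O g e) (u : ℕ → ℤ) (hu : Monotone u) (m : ℕ) (hm : 0 < m)
    (hu0 : u 0 ≤ 0) (hum : (N : ℤ) ≤ u m) (i j : Fin n) (κ : ℝ)
    (hi : ∀ k < m, cdf O i (u (k + 1)) - cdf O i (u k) ≤ κ) :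
    pr O (fun f => cell u m i f = cell u m j f) ≤
      κ + 2 * ∑ k ∈ Finset.range (m + 1), cv O i j (u k) := by
  have h1 : pr O (fun f => cell u m i f = cell u m j f) ≤
      ex O (fun f => ∑ k ∈ Finset.range m,
        (dd (u (k + 1)) i f - dd (u k) i f) * (dd (u (k + 1)) j f - dd (u k) j f)) := by
    rw [← ex_ind]
    refine ex_mono O fun f hf => ?_
    have hnn : ∀ q : Fin n, ∀ k, 0 ≤ dd (u (k + 1)) q f - dd (u k) q f := by
      intro q k
      have := hu (Nat.le_succ k)
      unfold dd
      by_cases h1 : f q < u k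
      · rw [if_pos h1, if_pos (lt_of_lt_of_le h1 this)]; norm_num
      · rw [if_neg h1]; split_ifs <;> norm_num
    by_cases hc : cell u m i f = cell u m j f
    · rw [if_pos hc]
      have hri := M.range f hf i
      have hrj := M.range f hf j
      have hpos := cell_pos u hu m hm i f (hu0.trans hri.1)
      set l := cell u m i f - 1 with hl
      have hlc : l + 1 = cell u m i f := by omega
      have hlm : l < m := by have := cell_le u m i f; omega
      have one : ∀ q : Fin n, cell u m q f = l + 1 → f q < N →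
          dd (u (l + 1)) q f - dd (u l) q f = 1 := by
        intro q hq hqN
        have ha : u l ≤ f q := (cell_spec u hu m q f l hlm).2 (by omega)
        have hb : f q < u (l + 1) := by
          rcases Nat.lt_or_ge (l + 1) m with h | h
          · by_contra hcon
            have := (cell_spec u hu m q f (l + 1) h).1 (not_lt.1 hcon)
            omega
          · have : l + 1 = m := by omega
            rw [this]; exact lt_of_lt_of_le hqN hum
        unfold dd
        rw [if_pos hb, if_neg (not_lt.2 ha)]; norm_num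
      have t1 := one i hlc.symm hri.2
      have t2 := one j (by omega) hrj.2
      refine le_trans ?_ (Finset.single_le_sum (f := fun k =>
        (dd (u (k + 1)) i f - dd (u k) i f) * (dd (u (k + 1)) j f - dd (u k) j f))
        (fun k _ => mul_nonneg (hnn i k) (hnn j k)) (Finset.mem_range.2 hlm))
      rw [t1, t2]; norm_num
    · rw [if_neg hc]
      exact Finset.sum_nonneg fun k _ => mul_nonneg (hnn i k) (hnn j k)
  refine h1.trans ?_
  rw [ex_sum]
  have h2 : ∀ k ∈ Finset.range m, ex O (fun f =>
      (dd (u (k + 1)) i f - dd (u k) i f) * (dd (u (k + 1)) j f - dd (u k) j f)) ≤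
      (cv O i j (u (k + 1)) + cv O i j (u k)) +
        κ * (cdf O j (u (k + 1)) - cdf O j (u k)) := by
    intro k hk
    have e1 : ex O (fun f =>
      (dd (u (k + 1)) i f - dd (u k) i f) * (dd (u (k + 1)) j f - dd (u k) j f)) =
      (ex O (fun f => dd (u (k + 1)) i f * dd (u (k + 1)) j f) +
        ex O (fun f => dd (u k) i f * dd (u k) j f)) -
      (ex O (fun f => dd (u (k + 1)) i f * dd (u k) j f) +
        ex O (fun f => dd (u k) i f * dd (u (k + 1)) j f)) := by
      rw [← ex_add, ← ex_add, ← ex_sub]
      refine ex_congr O fun f _ => ?_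
      ring
    rw [e1, ex_dd_mul, ex_dd_mul, ex_dd_mul, ex_dd_mul]
    have a1 := M.assoc i j (u (k + 1)) (u k)
    have a2 := M.assoc i j (u k) (u (k + 1))
    have a3 := hi k (Finset.mem_range.1 hk)
    have a4 : 0 ≤ cdf O j (u (k + 1)) - cdf O j (u k) :=
      sub_nonneg.2 (cdf_mono O j (hu (Nat.le_succ k)))
    unfold cv
    nlinarith
  refine (Finset.sum_le_sum h2).trans ?_
  rw [Finset.sum_add_distrib, Finset.sum_add_distrib, ← Finset.mul_sum,
    Finset.sum_range_sub (fun k => cdf O j (u k)) m]
  have hnn : ∀ k, 0 ≤ cv O i j (u k) := fun k => cv_nonneg M i j _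
  have h3 : ∑ k ∈ Finset.range m, cv O i j (u (k + 1)) ≤
      ∑ k ∈ Finset.range (m + 1), cv O i j (u k) := by
    rw [Finset.sum_range_succ' (fun k => cv O i j (u k)) m]
    linarith [hnn 0]
  have h4 : ∑ k ∈ Finset.range m, cv O i j (u k) ≤
      ∑ k ∈ Finset.range (m + 1), cv O i j (u k) := by
    rw [Finset.sum_range_succ (fun k => cv O i j (u k)) m]
    linarith [hnn m]
  have h5 : κ * (cdf O j (u m) - cdf O j (u 0)) ≤ κ := by
    have hκ : 0 ≤ κ := le_trans (sub_nonneg.2 (cdf_mono O i (hu (Nat.le_succ 0)))) (hi 0 hm)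
    have b1 := cdf_le_one O j (u m)
    have b2 := cdf_nonneg O j (u 0)
    nlinarith
  linarith

/-- Number of elements spread over the cells. -/
theorem spread_card (M : Model N O g e) (hg : 0 < g) (u : ℕ → ℤ) (hu : Monotone u) (m : ℕ)
    (hm : 0 < m) (hu0 : u 0 ≤ 0) (hum : (N : ℤ) ≤ u m) (S : Finset (Fin n))
    (hS : ∀ i ∈ S, ∀ k < m, cdf O i (u (k + 1)) - cdf O i (u k) ≤ g / 8) (hg1 : g ≤ 1)
    (V : ℝ) (hV : 0 ≤ V) (hVar : ∀ k ≤ m, ∑ i, ∑ j, cv O i j (u k) ≤ V ^ 2)
    (L : ℕ) (hL : 4 * ((m + 1 : ℕ) : ℝ) ^ 2 / g ^ 2 < L) :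
    (S.card : ℝ) ≤ 2 ^ (2 ^ L) * ((4 / g) * (m + 1) * V) := by
  set cl : Fin n → Fin n → Prop := fun i j => g ≤ pr O (fun f => cell u m i f = cell u m j f)
    with hcl
  -- maximal family of pairwise non close elements
  have hne : (S.powerset.filter (fun A => ∀ i ∈ A, ∀ j ∈ A, i ≠ j → ¬ cl i j)).Nonempty :=
    ⟨∅, by simp⟩
  obtain ⟨A, hA, hmax⟩ := Finset.exists_max_image _ Finset.card hne
  rw [Finset.mem_filter, Finset.mem_powerset] at hA
  obtain ⟨hAS, hAcl⟩ := hA
  have hcov : ∀ j ∈ S, ∃ c ∈ A, cl c j := by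
    intro j hj
    by_cases hjA : j ∈ A
    · refine ⟨j, hjA, ?_⟩
      show g ≤ _
      rw [pr_true O M.nonempty (fun f _ => rfl)]
      exact hg1
    · by_contra hcon
      push Not at hcon
      have hB : insert j A ∈ S.powerset.filter (fun A => ∀ i ∈ A, ∀ j ∈ A, i ≠ j → ¬ cl i j) := by
        rw [Finset.mem_filter, Finset.mem_powerset]
        refine ⟨Finset.insert_subset hj hAS, ?_⟩
        intro i hi k hk hik
        have hsym : ∀ a b, cl a b → cl b a := by
          intro a b hab
          show g ≤ _
          refine le_trans (show g ≤ _ from hab) (pr_mono O fun f _ h => h.symm)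
        rcases Finset.mem_insert.1 hi with hi' | hi'
        · rcases Finset.mem_insert.1 hk with hk' | hk'
          · exact absurd (hi'.trans hk'.symm) hik
          · rw [hi']; exact fun h => hcon k hk' (hsym _ _ h)
        · rcases Finset.mem_insert.1 hk with hk' | hk'
          · rw [hk']; exact hcon i hi'
          · exact hAcl i hi' k hk' hik
      have := hmax _ hB
      rw [Finset.card_insert_of_notMem hjA] at this
      omega
  -- each star is small
  have hstar : ∀ c ∈ A, ((S.filter (fun j => cl c j)).card : ℝ) ≤ (4 / g) * (m + 1) * V := by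
    intro c hc
    set Z := S.filter (fun j => cl c j) with hZ
    have h1 : ∀ j ∈ Z, g / 4 ≤ ∑ k ∈ Finset.range (m + 1), cv O c j (u k) := by
      intro j hj
      have hj2 := (Finset.mem_filter.1 hj).2
      have := close_cv M u hu m hm hu0 hum c j (g / 8) (hS c (hAS hc))
      have h3 : g ≤ pr O (fun f => cell u m c f = cell u m j f) := hj2
      linarith
    have h2 : (Z.card : ℝ) * (g / 4) ≤ ∑ k ∈ Finset.range (m + 1), ∑ j, cv O c j (u k) := by
      calc (Z.card : ℝ) * (g / 4) = ∑ _j ∈ Z, g / 4 := by rw [Finset.sum_const, nsmul_eq_mul]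
        _ ≤ ∑ j ∈ Z, ∑ k ∈ Finset.range (m + 1), cv O c j (u k) := Finset.sum_le_sum h1
        _ = ∑ k ∈ Finset.range (m + 1), ∑ j ∈ Z, cv O c j (u k) := Finset.sum_comm
        _ ≤ _ := Finset.sum_le_sum fun k _ =>
            Finset.sum_le_sum_of_subset_of_nonneg (Finset.subset_univ _)
              fun j _ _ => cv_nonneg M c j _
    have h3 : ∀ k ∈ Finset.range (m + 1), ∑ j, cv O c j (u k) ≤ V := by
      intro k hk
      have hk' : k ≤ m := by have := Finset.mem_range.1 hk; omega
      have := (sum_cv_sq_le M.nonempty c (u k)).trans (hVar k hk')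
      exact le_of_sq_le_sq this hV
    have h4 : (Z.card : ℝ) * (g / 4) ≤ (m + 1) * V := by
      refine h2.trans ((Finset.sum_le_sum h3).trans ?_)
      rw [Finset.sum_const, Finset.card_range, nsmul_eq_mul]; push_cast; exact le_rfl
    have h5 : (Z.card : ℝ) = (4 / g) * ((Z.card : ℝ) * (g / 4)) := by field_simp
    rw [h5, mul_assoc]
    exact mul_le_mul_of_nonneg_left h4 (by positivity)
  -- number of stars
  have hA2 : A.card < 2 ^ (2 ^ L) := by
    refine komlos O (m + 1) (by omega) g hg L hL (fun i f => cell u m i f) A ?_ ?_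
    · intro i _ f _; exact cell_le u m i f
    · intro i hi j hj hij
      have hnc := hAcl i hi j hj hij
      have h1 : pr O (fun f => cell u m i f = cell u m j f) < g := not_le.1 hnc
      have h3 := pr_three O M.nonempty (fun f => cell u m i f) (fun f => cell u m j f)
      have a1 : pr O (fun f => cell u m i f < cell u m j f) ≤ pr O (fun f => f i < f j) := by
        refine pr_mono O fun f _ h => ?_
        by_contra hcon
        have := cell_mono u m j i f (not_lt.1 hcon)
        omega
      have a2 : pr O (fun f => cell u m j f < cell u m i f) ≤ pr O (fun f => f j < f i) := by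
        refine pr_mono O fun f _ h => ?_
        by_contra hcon
        have := cell_mono u m i j f (not_lt.1 hcon)
        omega
      rcases M.unb i j hij with h | h
      · rw [abs_sub_comm]
        refine le_trans ?_ (le_abs_self _)
        linarith
      · refine le_trans ?_ (le_abs_self _)
        linarith
  have hfin : S ⊆ A.biUnion (fun c => S.filter (fun j => cl c j)) := by
    intro j hj
    obtain ⟨c, hc, hcj⟩ := hcov j hj
    exact Finset.mem_biUnion.2 ⟨c, hc, Finset.mem_filter.2 ⟨hj, hcj⟩⟩
  have h6 : (S.card : ℝ) ≤ ∑ c ∈ A, ((S.filter (fun j => cl c j)).card : ℝ) := by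
    have := (Finset.card_le_card hfin).trans Finset.card_biUnion_le
    exact_mod_cast this
  refine h6.trans ((Finset.sum_le_sum hstar).trans ?_)
  rw [Finset.sum_const, nsmul_eq_mul]
  have h7 : (A.card : ℝ) ≤ 2 ^ (2 ^ L) := by exact_mod_cast hA2.le
  exact mul_le_mul_of_nonneg_right h7 (by positivity)

end Pool.Agent.Helper23.KS
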