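import Mathlib
import Pool.Agent.Helper23.KS.Tails
import Pool.Agent.Helper23.KS.Spread

set_option autoImplicit false

/-!
# The number of the near elements with large spread
-/

namespace Pool.Agent.Helper23.KS

variable {n N : ℕ} {O : Finset (Fin n → ℤ)} {g : ℝ}

/-- Thresholds: an arithmetic progression, completed on the left and on the right. -/
def thr (N : ℕ) (u0 h : ℤ) (K : ℕ) (k : ℕ) : ℤ :=
  if k = 0 then min 0 u0 else if k ≤ K + 1 then u0 + (k - 1) * h else max N (u0 + K * h)

theorem thr_mono (N : ℕ) (u0 h : ℤ) (hh : 0 ≤ h) (K : ℕ) : Monotone (thr N u0 h K) := by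
  refine monotone_nat_of_le_succ fun k => ?_
  unfold thr
  rcases Nat.eq_zero_or_pos k with h0 | hpos
  · subst h0
    rw [if_pos rfl, if_neg (by omega), if_pos (by omega)]
    push_cast
    have : min 0 u0 ≤ u0 := min_le_right _ _
    linarith
  · rw [if_neg (show ¬ k = 0 by omega), if_neg (show ¬ k + 1 = 0 by omega)]
    by_cases h1 : k + 1 ≤ K + 1
    · rw [if_pos (show k ≤ K + 1 by omega), if_pos h1]
      push_cast
      linarith
    · rw [if_neg h1]
      by_cases h2 : k ≤ K + 1
      · have hk : k = K + 1 := by omega
        rw [if_pos h2, hk]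
        push_cast
        have : u0 + K * h ≤ max (N : ℤ) (u0 + K * h) := le_max_right _ _
        linarith
      · rw [if_neg h2]

theorem cv_zero_left (M : Model N O g 1) (i j : Fin n) (u : ℤ) (hu : u ≤ 0) : cv O i j u = 0 := by
  unfold cv
  rw [cdf_zero M i u hu, pr_false]
  · ring
  · intro f hf hh
    have := (M.range f hf i).1
    omega

theorem cv_zero_right (M : Model N O g 1) (i j : Fin n) (u : ℤ) (hu : N ≤ u) :
    cv O i j u = 0 := by
  unfold cv
  rw [cdf_one M i u hu, cdf_one M j u hu, pr_true O M.nonempty]
  · ring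
  · intro f hf
    have h1 := (M.range f hf i).2
    have h2 := (M.range f hf j).2
    exact ⟨by omega, by omega⟩

theorem near_card (M : Model N O g 1) (hg : 0 < g) (hg1 : g ≤ 1) (a b : Fin n → ℤ)
    (hq : ∀ q, Quart O q (a q) (b q)) (m W h : ℤ) (hh : 0 ≤ h) (J j0 K : ℕ)
    (hJ : (1 - g / 8) ^ J ≤ 1 / 4) (hj0 : ((1 : ℝ) / 3) ^ j0 ≤ g / 8) (hK : 2 * W ≤ K * h)
    (S : Finset (Fin n))
    (hS1 : ∀ q ∈ S, m - W ≤ a q - j0 * (b q - a q))
    (hS2 : ∀ q ∈ S, b q + j0 * (b q - a q) ≤ m + W)
    (hS3 : ∀ q ∈ S, 2 * J * h < b q - a q)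
    (V : ℝ) (hV : 0 ≤ V) (U : ℤ) (hU : m - W + K * h ≤ U)
    (hVU : ((n : ℝ) / N) * U + 1 ≤ V ^ 2)
    (L : ℕ) (hL : 4 * ((K + 3 : ℕ) : ℝ) ^ 2 / g ^ 2 < L) :
    (S.card : ℝ) ≤ 2 ^ (2 ^ L) * ((4 / g) * (K + 3) * V) := by
  have hν : (0 : ℝ) ≤ (n : ℝ) / N := by positivity
  have hpow : (0 : ℝ) < (1 / 3) ^ j0 := by positivity
  have key := spread_card M hg (thr N (m - W) h K) (thr_mono N (m - W) h hh K) (K + 2) (by omega)
    (by unfold thr; rw [if_pos rfl]; exact min_le_left _ _)
    (by
      unfold thr
      rw [if_neg (by omega), if_neg (by omega)]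
      exact le_max_left _ _) S ?_ hg1 V hV ?_ L hL
  · push_cast at key
    have e : (K : ℝ) + 2 + 1 = K + 3 := by ring
    rw [e] at key
    exact key
  · -- masses of the cells
    intro q hqS k hk
    rcases Nat.eq_zero_or_pos k with h0 | hpos
    · subst h0
      have e1 : thr N (m - W) h K (0 + 1) = m - W := by
        unfold thr
        rw [if_neg (by omega), if_pos (by omega)]
        push_cast; ring
      rw [e1]
      have h1 := (hq q).tailF M j0
      have h2 := cdf_mono O q (hS1 q hqS)
      have h3 := cdf_nonneg O q (thr N (m - W) h K 0)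
      linarith
    · by_cases hk1 : k ≤ K
      · by_contra hcon
        push Not at hcon
        have e1 : thr N (m - W) h K (k + 1) = m - W + k * h := by
          unfold thr
          rw [if_neg (by omega), if_pos (by omega)]
          push_cast; ring
        have e2 : thr N (m - W) h K k = m - W + (k - 1) * h := by
          unfold thr
          rw [if_neg (by omega), if_pos (by omega)]
        rw [e1, e2] at hcon
        have h1 := (hq q).anticonc M (g / 8) (by positivity) (by linarith) J hJ
          (m - W + (k - 1) * h) (m - W + k * h) (by linarith) hcon.le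
        have h2 := hS3 q hqS
        have e3 : m - W + k * h - (m - W + (k - 1) * h) = h := by ring
        rw [e3] at h1
        linarith
      · have hkK : k = K + 1 := by omega
        have e2 : thr N (m - W) h K k = m - W + K * h := by
          unfold thr
          rw [if_neg (by omega), if_pos (by omega), hkK]
          push_cast; ring
        rw [e2]
        have h1 := (hq q).tailG M j0
        have h2 := cdf_mono O q (show b q + j0 * (b q - a q) ≤ m - W + K * h by
          have := hS2 q hqS; linarith)
        have h3 := cdf_le_one O q (thr N (m - W) h K (k + 1))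
        linarith
  · -- variances
    intro k hk
    have hzero : ∀ u : ℤ, (u ≤ 0 ∨ N ≤ u) → ∑ i, ∑ j, cv O i j u ≤ V ^ 2 := by
      intro u hu
      rw [Finset.sum_eq_zero]
      · positivity
      · intro i _
        refine Finset.sum_eq_zero fun j _ => ?_
        rcases hu with hu | hu
        · exact cv_zero_left M i j u hu
        · exact cv_zero_right M i j u hu
    by_cases h0 : k = 0
    · refine hzero _ (Or.inl ?_)
      unfold thr; rw [if_pos h0]; exact min_le_left _ _
    · by_cases h1 : k ≤ K + 1
      · have e2 : thr N (m - W) h K k = m - W + (k - 1) * h := by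
          unfold thr
          rw [if_neg h0, if_pos h1]
        rw [e2]
        rcases le_total (m - W + (k - 1) * h) 0 with hle | hle
        · exact hzero _ (Or.inl hle)
        · refine (M.var _ hle).trans (le_trans ?_ hVU)
          have h3 : m - W + (k - 1) * h ≤ U := by
            refine le_trans ?_ hU
            have : ((k : ℤ) - 1) * h ≤ K * h := by
              refine mul_le_mul_of_nonneg_right ?_ hh
              have : (k : ℤ) ≤ K + 1 := by exact_mod_cast h1
              linarith
            linarith
          have h4 : (((m - W + (k - 1) * h : ℤ)) : ℝ) ≤ U := by exact_mod_cast h3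
          have := mul_le_mul_of_nonneg_left h4 hν
          linarith
      · refine hzero _ (Or.inr ?_)
        unfold thr; rw [if_neg h0, if_neg h1]; exact le_max_left _ _

end Pool.Agent.Helper23.KS
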