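import Mathlib
import Pool.Agent.Helper23.KS.Far
import Pool.Agent.Helper23.KS.Near

set_option autoImplicit false

/-!
# The main inequality: `ν σ² ≤ K b` for every element
-/

namespace Pool.Agent.Helper23.KS

variable {n N : ℕ} {O : Finset (Fin n → ℤ)} {g : ℝ}

theorem exists_median (M : Model N O g 1) (q : Fin n) :
    ∃ m : ℤ, 0 < m ∧ m ≤ N ∧ 1 / 2 ≤ cdf O q m ∧ cdf O q (m - 1) < 1 / 2 := by
  classical
  have h2 : ∃ k : ℕ, 1 / 2 ≤ cdf O q k := ⟨N, by
    rw [cdf_one M q _ le_rfl]; norm_num⟩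
  have p2 : 0 < Nat.find h2 := by
    rw [Nat.find_pos]
    rw [cdf_zero M q _ (by simp)]
    norm_num
  refine ⟨Nat.find h2, by exact_mod_cast p2, ?_, Nat.find_spec h2, ?_⟩
  · have : Nat.find h2 ≤ N := Nat.find_min' h2 (by rw [cdf_one M q _ le_rfl]; norm_num)
    exact_mod_cast this
  · have := Nat.find_min h2 (m := Nat.find h2 - 1) (by omega)
    have e : ((Nat.find h2 - 1 : ℕ) : ℤ) = (Nat.find h2 : ℤ) - 1 := by omega
    rw [e] at this
    exact not_le.1 this

theorem pr_lt_ge (O : Finset (Fin n → ℤ)) (i j : Fin n) (u : ℤ) :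
    cdf O i u - cdf O j u ≤ pr O (fun f => f i < f j) := by
  have h1 : pr O (fun f => f i < u ∧ ¬ f j < u) ≤ pr O (fun f => f i < f j) := by
    refine pr_mono O fun f _ h => ?_
    have h1 := h.1
    have h2 := h.2
    show f i < f j
    omega
  have h2 := pr_and_not O (fun f => f i < u) (fun f => f j < u)
  have h3 : pr O (fun f => f i < u ∧ f j < u) ≤ cdf O j u := pr_mono O fun f _ h => h.2
  unfold cdf at *
  linarith

theorem core_false (M : Model N O g 1) (hg : 0 < g) (hg1 : g ≤ 1 / 2) (a b : Fin n → ℤ)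
    (hq : ∀ q, Quart O q (a q) (b q)) (y : Fin n)
    (hmax : ∀ q, (b q - a q) ^ 2 * b y ≤ (b y - a y) ^ 2 * b q)
    (J j0 T R D1 D R2 K L : ℕ) (hJ : (1 - g / 8) ^ J ≤ 1 / 4) (hD1 : D1 = 8 * J + 8)
    (hj0 : ((1 : ℝ) / 3) ^ j0 ≤ g / 8) (hR : R = 57600 * 16 * D1) (hT : j0 + 1 ≤ T)
    (hT2 : ((1 : ℝ) / 3) ^ T * (64 * D1 * (R + 1)) ≤ 1) (hD : D = 2 * J * D1 * (4 * T))
    (hR2 : R2 = R + (j0 + 1) * (R + 3)) (hK : K = 4 * D * R2)
    (hL : 4 * ((K + 3 : ℕ) : ℝ) ^ 2 / g ^ 2 < L) (C1 δ Kf : ℝ)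
    (hC1 : C1 = 2 ^ (2 ^ L) * ((4 / g) * (K + 3))) (hδ : δ = 1 / (16 * D1 * C1))
    (hKf : Kf = (2 + 4 * R2) / δ ^ 2 + 200 * D1 + D)
    (hbig : Kf * b y < ((n : ℝ) / N) * ((b y : ℝ) - a y) ^ 2) : False := by
  classical
  -- basic quantities
  set σ : ℤ := b y - a y with hσdef
  set A : ℤ := b y with hAdef
  set ν : ℝ := (n : ℝ) / N with hνdef
  have hσ0 : 0 < σ := by have := (hq y).lt; omega
  have hσA : σ ≤ A := by have := (hq y).a_nonneg M; omega
  have hA0 : 0 < A := lt_of_lt_of_le hσ0 hσA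
  have hN0 : 0 < N := lt_of_lt_of_le M.npos M.le
  have hNR : (0 : ℝ) < N := by exact_mod_cast hN0
  have hnR : (0 : ℝ) < n := by exact_mod_cast M.npos
  have hν0 : 0 < ν := div_pos hnR hNR
  have hν1 : ν ≤ 1 := by
    rw [hνdef, div_le_one hNR]; exact_mod_cast M.le
  have hJpos : 0 < J := by
    rcases Nat.eq_zero_or_pos J with h | h
    · subst h; norm_num at hJ
    · exact h
  have hTpos : 0 < T := by omega
  have hD1pos : 0 < D1 := by omega
  have hDpos : 0 < D := by rw [hD]; positivity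
  have hD1R : (0 : ℝ) < D1 := by exact_mod_cast hD1pos
  have hC1pos : 0 < C1 := by rw [hC1]; positivity
  have hδpos : 0 < δ := by rw [hδ]; positivity
  have hKfpos : 0 < Kf := by rw [hKf]; positivity
  have hσR : (0 : ℝ) < σ := by exact_mod_cast hσ0
  have hAR : (0 : ℝ) < A := by exact_mod_cast hA0
  have hσAR : (σ : ℝ) ≤ A := by exact_mod_cast hσA
  have hcast : ((b y : ℝ) - a y) = (σ : ℝ) := by rw [hσdef]; push_cast; ring
  have hbig' : Kf * A < ν * σ ^ 2 := by
    rw [← hcast]; exact hbig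
  have hνσ : Kf < ν * σ := by
    have h0 : Kf * σ ≤ Kf * A := mul_le_mul_of_nonneg_left hσAR hKfpos.le
    have h1 : Kf * σ < (ν * σ) * σ := by linarith only [h0, hbig']
    exact lt_of_mul_lt_mul_right h1 hσR.le
  have hσKf : Kf < σ := by
    have h0 : ν * σ ≤ 1 * σ := mul_le_mul_of_nonneg_right hν1 hσR.le
    linarith only [h0, hνσ]
  have hterm : 0 ≤ (2 + 4 * (R2 : ℝ)) / δ ^ 2 := by positivity
  have hσD1 : 200 * (D1 : ℤ) < σ := by
    have : 200 * (D1 : ℝ) < σ := by
      have : (0 : ℝ) ≤ D := by positivity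
      linarith
    exact_mod_cast this
  have hσD : (D : ℤ) < σ := by
    have : (D : ℝ) < σ := by linarith
    exact_mod_cast this
  have hνσD1 : 200 * (D1 : ℝ) < ν * σ := by
    have : (0 : ℝ) ≤ D := by positivity
    linarith
  have hD1ge : (8 : ℤ) ≤ D1 := by exact_mod_cast (show 8 ≤ D1 by omega)
  -- the median of `y`
  obtain ⟨m, hm0, hmN, hmed, hmed'⟩ := exists_median M y
  have hmA : m ≤ A := by
    by_contra hcon
    have h1 := cdf_mono O y (show A ≤ m - 1 by omega)
    have h2 := (hq y).le_b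
    linarith
  -- windows
  set x : ℤ := σ / D1 with hx
  set w : ℤ := x / 4 with hw
  have hD1Z : (0 : ℤ) < D1 := by exact_mod_cast hD1pos
  have hx1 : (D1 : ℤ) * x ≤ σ := Int.mul_ediv_self_le hD1Z.ne'
  have hx2 : σ < (D1 : ℤ) * (x + 1) := by
    have := Int.lt_ediv_add_one_mul_self σ hD1Z
    rw [← hx] at this
    linarith
  have hx0 : 0 ≤ x := Int.ediv_nonneg hσ0.le hD1Z.le
  have hw0 : 0 ≤ w := by omega
  have hw1 : 4 * w ≤ x := by omega
  have hw2 : x < 4 * w + 4 := by omega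
  have hD1J : (D1 : ℤ) = 8 * J + 8 := by exact_mod_cast hD1
  have hJZ : (0 : ℤ) < J := by exact_mod_cast hJpos
  have hJx : 8 * ((J : ℤ) * x) + 8 * x ≤ σ := by rw [hD1J] at hx1; linarith
  have hJw : 4 * ((J : ℤ) * w) ≤ J * x := by
    have h0 : (J : ℤ) * (4 * w) ≤ J * x := mul_le_mul_of_nonneg_left hw1 hJZ.le
    linarith only [h0]
  have hxσ : x ≤ σ := by
    have h0 : 1 * x ≤ (D1 : ℤ) * x := mul_le_mul_of_nonneg_right (by omega) hx0
    linarith only [h0, hx1]
  have hJx0 : 0 ≤ (J : ℤ) * x := by positivity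
  have hmw0 : 0 ≤ m - w := by
    by_contra hcon
    have h1 := cdf_mono O y (show m ≤ w by omega)
    have h2 := (hq y).anticonc M (g / 8) (by positivity) (by linarith) J hJ 0 w hw0 (by
      rw [cdf_zero M y 0 le_rfl]; linarith)
    have e : (2 * (J : ℤ)) * (w - 0) = 2 * (J * w) := by ring
    rw [e] at h2
    omega
  have hmwN : m + w ≤ N := by
    by_contra hcon
    rcases lt_or_ge (m - 1) N with h3 | h3
    · have h2 := (hq y).anticonc M (g / 8) (by positivity) (by linarith) J hJ (m - 1) N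
        (by omega) (by rw [cdf_one M y N le_rfl]; linarith)
      have e0 : (2 * (J : ℤ)) * (N - (m - 1)) ≤ (2 * J) * w :=
        mul_le_mul_of_nonneg_left (by omega) (by omega)
      have e : (2 * (J : ℤ)) * w = 2 * (J * w) := by ring
      omega
    · omega
  have hwin : cdf O y (m + x) - cdf O y (m - 1 - x) < g / 8 := by
    by_contra hcon
    push Not at hcon
    have h2 := (hq y).anticonc M (g / 8) (by positivity) (by linarith) J hJ (m - 1 - x) (m + x)
      (by omega) hcon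
    have e : (2 * (J : ℤ)) * (m + x - (m - 1 - x)) = 4 * (J * x) + 2 * J := by ring
    rw [e] at h2
    omega
  have hno : ∀ q, q ≠ y → g / 8 < cdf O q (m - x) ∨ g / 8 < 1 - cdf O q (m + x) := by
    intro q hqy
    by_contra hcon
    push Not at hcon
    obtain ⟨h1, h2⟩ := hcon
    have h3 := pr_lt_ge O q y (m + x)
    have h4 := pr_lt_ge O y q (m - x)
    have h5 := cdf_mono O y (show m - 1 - x ≤ m - 1 by omega)
    have h6 := cdf_mono O y (show m - 1 - x ≤ m - x by omega)
    have h7 := cdf_mono O y (show m ≤ m + x by omega)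
    rcases M.unb q y hqy with h | h <;> linarith
  -- distances and spreads
  set d : Fin n → ℤ := dist' a b m with hd
  set s : Fin n → ℤ := fun q => b q - a q with hs
  have hspos : ∀ q, 0 < s q := fun q => by have := (hq q).lt; simp only [hs]; omega
  have hd0 : ∀ q, 0 ≤ d q := fun q => dist'_nonneg a b m q
  have hdint : ∀ q, m - (d q + s q) ≤ a q ∧ b q ≤ m + (d q + s q) :=
    fun q => dist'_interval a b m q (hq q).lt
  have hspread : ∀ q, s q ^ 2 ≤ 3 * σ ^ 2 + 2 * σ * d q := by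
    intro q
    have h1 : s q ^ 2 * A ≤ σ ^ 2 * b q := hmax q
    have h2 : b q ≤ A + (d q + s q) := by have := (hdint q).2; omega
    have h3 : σ ^ 2 * b q ≤ σ ^ 2 * (A + (d q + s q)) :=
      mul_le_mul_of_nonneg_left h2 (by positivity)
    have h4 : σ ^ 2 * (d q + s q) ≤ (σ * A) * (d q + s q) := by
      refine mul_le_mul_of_nonneg_right ?_ (add_nonneg (hd0 q) (hspos q).le)
      have h0 : σ * σ ≤ σ * A := mul_le_mul_of_nonneg_left hσA hσ0.le
      linarith only [h0]
    have h5 : s q ^ 2 * A ≤ (σ ^ 2 + σ * (d q + s q)) * A := by linarith only [h1, h3, h4]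
    have h6 : s q ^ 2 ≤ σ ^ 2 + σ * (d q + s q) := le_of_mul_le_mul_right h5 hA0
    have h7 : 0 ≤ (σ - s q) ^ 2 := sq_nonneg _
    linarith only [h6, h7]
  -- the window probabilities
  set P : Fin n → ℝ := fun q => cdf O q (m + w) - cdf O q (m - w) with hP
  have hP0 : ∀ q, 0 ≤ P q := fun q => sub_nonneg.2 (cdf_mono O q (by omega))
  have hP1 : ∀ q, P q ≤ 1 := fun q => by
    have := cdf_le_one O q (m + w)
    have := cdf_nonneg O q (m - w)
    simp only [hP]; linarith
  set SN : Finset (Fin n) := Finset.univ.filter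
    (fun q => q ≠ y ∧ x < 4 * T * s q ∧ d q ≤ R * σ) with hSN
  set SA : Finset (Fin n) := Finset.univ.filter
    (fun q => q ≠ y ∧ 4 * T * s q ≤ x ∧ d q ≤ R * σ) with hSA
  set SB : Finset (Fin n) := Finset.univ.filter
    (fun q => q ≠ y ∧ R * σ < d q) with hSB
  have hsplit : ∑ q, P q ≤ 1 + (SN.card : ℝ) + ∑ q ∈ SA, P q + ∑ q ∈ SB, P q := by
    have h1 : ∀ q ∈ Finset.univ, P q ≤ (((if q = y then (1 : ℝ) else 0) +
        (if q ∈ SN then (1 : ℝ) else 0)) + (if q ∈ SA then P q else 0)) +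
        (if q ∈ SB then P q else 0) := by
      intro q _
      have p0 := hP0 q
      have p1 := hP1 q
      have z1 : (0 : ℝ) ≤ (if q = y then (1 : ℝ) else 0) := by split_ifs <;> norm_num
      have z2 : (0 : ℝ) ≤ (if q ∈ SN then (1 : ℝ) else 0) := by split_ifs <;> norm_num
      have z3 : (0 : ℝ) ≤ (if q ∈ SA then P q else 0) := by split_ifs <;> first | exact p0 | norm_num
      have z4 : (0 : ℝ) ≤ (if q ∈ SB then P q else 0) := by split_ifs <;> first | exact p0 | norm_num
      by_cases e1 : q = y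
      · rw [if_pos e1] at z1 ⊢; linarith
      · by_cases e2 : R * σ < d q
        · have : q ∈ SB := Finset.mem_filter.2 ⟨Finset.mem_univ _, e1, e2⟩
          rw [if_pos this] at z4 ⊢; linarith
        · by_cases e3 : x < 4 * T * s q
          · have : q ∈ SN := Finset.mem_filter.2 ⟨Finset.mem_univ _, e1, e3, not_lt.1 e2⟩
            rw [if_pos this] at z2 ⊢; linarith
          · have : q ∈ SA := Finset.mem_filter.2
              ⟨Finset.mem_univ _, e1, not_lt.1 e3, not_lt.1 e2⟩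
            rw [if_pos this] at z3 ⊢; linarith
    refine (Finset.sum_le_sum h1).trans ?_
    rw [Finset.sum_add_distrib, Finset.sum_add_distrib, Finset.sum_add_distrib,
      Finset.sum_ite_eq' Finset.univ y (fun _ => (1 : ℝ)), if_pos (Finset.mem_univ _),
      Finset.sum_ite_mem, Finset.sum_ite_mem, Finset.sum_ite_mem, Finset.univ_inter,
      Finset.univ_inter, Finset.univ_inter, Finset.sum_const, nsmul_eq_mul, mul_one]
  -- near and spread
  have hNcard : (SN.card : ℝ) ≤ ν * σ / (16 * D1) := by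
    set h : ℤ := σ / D with hh
    have hDZ : (0 : ℤ) < D := by exact_mod_cast hDpos
    have hh1 : (D : ℤ) * h ≤ σ := Int.mul_ediv_self_le hDZ.ne'
    have hh2 : σ < (D : ℤ) * (h + 1) := by
      have := Int.lt_ediv_add_one_mul_self σ hDZ
      rw [← hh] at this
      linarith
    have hhpos : 1 ≤ h := by
      rw [hh, Int.le_ediv_iff_mul_le hDZ]; linarith
    set W : ℤ := R2 * σ with hW
    have hR2Z : (R2 : ℤ) = R + (j0 + 1) * (R + 3) := by exact_mod_cast hR2
    have hKZ : (K : ℤ) = 4 * D * R2 := by exact_mod_cast hK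
    have hsN : ∀ q ∈ SN, s q ≤ (R + 3) * σ := by
      intro q hqS
      obtain ⟨-, -, -, hdq⟩ := Finset.mem_filter.1 hqS
      have h1 := hspread q
      have h2 : 2 * σ * d q ≤ 2 * σ * (R * σ) := mul_le_mul_of_nonneg_left hdq (by omega)
      have hR0 : (0 : ℤ) ≤ R := by positivity
      have h3 : s q ^ 2 ≤ ((R + 3) * σ) ^ 2 := by
        have f1 := sq_nonneg σ
        have f2 := mul_nonneg hR0 (sq_nonneg σ)
        have f3 := mul_nonneg (mul_nonneg hR0 hR0) (sq_nonneg σ)
        linarith only [h1, h2, f1, f2, f3]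
      exact le_of_sq_le_sq h3 (by positivity)
    have hR0 : (0 : ℤ) ≤ R := by positivity
    have hj00 : (0 : ℤ) ≤ j0 := by positivity
    have hR20 : (0 : ℤ) ≤ R2 := by positivity
    have hjs : ∀ q ∈ SN, ((j0 : ℤ) + 1) * s q ≤ ((j0 : ℤ) + 1) * ((R + 3) * σ) := fun q hqS =>
      mul_le_mul_of_nonneg_left (hsN q hqS) (by omega)
    have hWeq : W = R * σ + ((j0 : ℤ) + 1) * ((R + 3) * σ) := by rw [hW, hR2Z]; ring
    have hVV : ν * (((1 + 4 * R2) * A : ℤ) : ℝ) + 1 ≤ (δ * (ν * σ)) ^ 2 := by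
      have h1 : (2 + 4 * (R2 : ℝ)) / δ ^ 2 ≤ Kf := by
        have : (0 : ℝ) ≤ D := by positivity
        rw [hKf]; linarith
      have h2 : (2 + 4 * (R2 : ℝ)) ≤ Kf * δ ^ 2 := by
        rw [div_le_iff₀ (by positivity)] at h1; exact h1
      have h3 : (δ * (ν * σ)) ^ 2 = (δ ^ 2 * ν) * (ν * σ ^ 2) := by ring
      have h4 : (δ ^ 2 * ν) * (Kf * A) ≤ (δ ^ 2 * ν) * (ν * σ ^ 2) :=
        mul_le_mul_of_nonneg_left hbig'.le (by positivity)
      have h5 : (2 + 4 * (R2 : ℝ)) * (ν * A) ≤ (Kf * δ ^ 2) * (ν * A) :=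
        mul_le_mul_of_nonneg_right h2 (by positivity)
      have h6 : 1 ≤ ν * A := by
        have : ν * σ ≤ ν * A := mul_le_mul_of_nonneg_left hσAR hν0.le
        have : (1 : ℝ) ≤ D1 := by exact_mod_cast hD1pos
        linarith
      rw [h3]
      push_cast
      linarith only [h4, h5, h6]
    have key := near_card M hg (by linarith) a b hq m W h (by omega) J j0 K hJ hj0 (by
        have h1 : σ ≤ 2 * (D * h) := by
          have : (D : ℤ) * 1 ≤ D * h := mul_le_mul_of_nonneg_left hhpos hDZ.le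
          linarith only [this, hh2]
        have h2 : (R2 : ℤ) * σ ≤ R2 * (2 * (D * h)) := mul_le_mul_of_nonneg_left h1 hR20
        rw [hW, hKZ]; linarith only [h2]) SN
      (by
        intro q hqS
        have h1 := (hdint q).1
        obtain ⟨-, -, -, hdq⟩ := Finset.mem_filter.1 hqS
        have h2 := hjs q hqS
        have h3 : ((j0 : ℤ) + 1) * s q = j0 * s q + s q := by ring
        have h4 : (j0 : ℤ) * s q = j0 * (b q - a q) := rfl
        linarith only [h1, hdq, h2, h3, h4, hWeq])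
      (by
        intro q hqS
        have h1 := (hdint q).2
        obtain ⟨-, -, -, hdq⟩ := Finset.mem_filter.1 hqS
        have h2 := hjs q hqS
        have h3 : ((j0 : ℤ) + 1) * s q = j0 * s q + s q := by ring
        have h4 : (j0 : ℤ) * s q = j0 * (b q - a q) := rfl
        linarith only [h1, hdq, h2, h3, h4, hWeq])
      (by
        intro q hqS
        obtain ⟨-, -, hxs, hdq⟩ := Finset.mem_filter.1 hqS
        have h1 : σ < (D1 : ℤ) * (4 * T * s q) := by
          refine lt_of_lt_of_le hx2 ?_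
          exact mul_le_mul_of_nonneg_left (by omega) hD1Z.le
        have hDZ' : (D : ℤ) = 2 * J * D1 * (4 * T) := by exact_mod_cast hD
        have h2 : ((D1 : ℤ) * (4 * T)) * (2 * J * h) < ((D1 : ℤ) * (4 * T)) * s q := by
          have e1 : ((D1 : ℤ) * (4 * T)) * (2 * J * h) = D * h := by rw [hDZ']; ring
          rw [e1]
          have e2 : ((D1 : ℤ) * (4 * T)) * s q = D1 * (4 * T * s q) := by ring
          rw [e2]
          linarith only [h1, hh1]
        exact lt_of_mul_lt_mul_left h2 (by positivity))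
      (δ * (ν * σ)) (by positivity) ((1 + 4 * R2) * A) (by
        have h1 : (4 * (R2 : ℤ)) * (D * h) ≤ (4 * R2) * A :=
          mul_le_mul_of_nonneg_left (by linarith only [hh1, hσA]) (by positivity)
        have h2 : (K : ℤ) * h = (4 * R2) * (D * h) := by rw [hKZ]; ring
        have h3 : 0 ≤ W := by rw [hW]; positivity
        rw [h2]
        linarith only [h1, h3, hmA]) hVV L hL
    have e : (2 : ℝ) ^ (2 ^ L) * ((4 / g) * (K + 3) * (δ * (ν * σ))) = ν * σ / (16 * D1) := by
      have e1 : (2 : ℝ) ^ (2 ^ L) * ((4 / g) * (K + 3) * (δ * (ν * σ))) = C1 * δ * (ν * σ) := by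
        rw [hC1]; ring
      rw [e1, hδ]
      field_simp
    rw [e] at key
    exact key
  -- near and concentrated
  have hAsum : ∑ q ∈ SA, P q ≤ ν * σ / (16 * D1) + 4 := by
    have hpT : (0 : ℝ) < (1 / 3) ^ T := by positivity
    have hpT1 : ((1 : ℝ) / 3) ^ T ≤ 1 := pow_le_one₀ (by norm_num) (by norm_num)
    have h1 : ∀ q ∈ SA, P q ≤ (1 / 3) ^ T := by
      intro q hqS
      obtain ⟨-, hqy, hsx, hdq⟩ := Finset.mem_filter.1 hqS
      refine win_pr M a b hq m w hw0 q T ?_
      have hsq := hspos q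
      have hT' : ((j0 : ℤ) + 1) * s q ≤ T * s q := by
        refine mul_le_mul_of_nonneg_right ?_ hsq.le
        exact_mod_cast hT
      have e3 : ((j0 : ℤ) + 1) * s q = j0 * s q + s q := by ring
      have e4 : 4 * (T : ℤ) * s q = 4 * (T * s q) := by ring
      rw [e4] at hsx
      have hj0s : 0 ≤ (j0 : ℤ) * s q := by positivity
      rcases hno q hqy with h | h
      · -- on the left
        have h2 := (hq q).tailF M j0
        have h3 : a q - j0 * s q < m - x := by
          by_contra hcon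
          have := cdf_mono O q (not_lt.1 hcon)
          have e5 : a q - (j0 : ℤ) * s q = a q - j0 * (b q - a q) := rfl
          rw [e5] at this
          have : (0 : ℝ) < (1 / 3) ^ j0 := by positivity
          linarith
        have h4 : m - b q ≤ d q := le_trans (le_max_right _ _) (le_max_left _ _)
        have h5 : b q = a q + s q := by simp only [hs]; ring
        show (T : ℤ) * s q ≤ d q - w
        linarith
      · have h2 := (hq q).tailG M j0
        have h3 : m + x < b q + j0 * s q := by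
          by_contra hcon
          have := cdf_mono O q (not_lt.1 hcon)
          have e5 : b q + (j0 : ℤ) * s q = b q + j0 * (b q - a q) := rfl
          rw [e5] at this
          have : (0 : ℝ) < (1 / 3) ^ j0 := by positivity
          linarith
        have h4 : a q - m ≤ d q := le_trans (le_max_left _ _) (le_max_left _ _)
        have h5 : b q = a q + s q := by simp only [hs]; ring
        show (T : ℤ) * s q ≤ d q - w
        linarith
    have h2 : (SA.card : ℝ) ≤ 4 * ν * (((R + 1) * σ : ℤ) : ℝ) + 4 := by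
      refine count_le M a b hq m ((R + 1) * σ) hm0.le hmN (by positivity) SA ?_
      intro q hqS
      obtain ⟨-, hqy, hsx, hdq⟩ := Finset.mem_filter.1 hqS
      have h3 := hdint q
      have hsq := hspos q
      have h4 : s q ≤ σ := by
        have e4 : 4 * (T : ℤ) * s q = 4 * (T * s q) := by ring
        have e5 : 1 * s q ≤ T * s q :=
          mul_le_mul_of_nonneg_right (by exact_mod_cast hTpos) hsq.le
        have e7 : 0 ≤ (T : ℤ) * s q := by positivity
        linarith only [e4, e5, e7, hxσ, hsx]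
      constructor <;> linarith only [h3.1, h3.2, h4, hdq]
    calc ∑ q ∈ SA, P q ≤ ∑ _q ∈ SA, ((1 : ℝ) / 3) ^ T := Finset.sum_le_sum h1
      _ = (SA.card : ℝ) * (1 / 3) ^ T := by rw [Finset.sum_const, nsmul_eq_mul]
      _ ≤ (4 * ν * (((R + 1) * σ : ℤ) : ℝ) + 4) * (1 / 3) ^ T :=
          mul_le_mul_of_nonneg_right h2 hpT.le
      _ ≤ ν * σ / (16 * D1) + 4 := by
          push_cast
          have e1 : 4 * ν * ((R + 1) * σ) * (1 / 3) ^ T =
              (ν * σ / (16 * D1)) * ((1 / 3) ^ T * (64 * D1 * (R + 1))) := by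
            field_simp
            ring
          have e2 : (ν * σ / (16 * D1)) * ((1 / 3) ^ T * (64 * D1 * (R + 1))) ≤
              (ν * σ / (16 * D1)) * 1 := mul_le_mul_of_nonneg_left hT2 (by positivity)
          linarith only [e1, e2, hpT1]
  -- far
  have hBsum : ∑ q ∈ SB, P q ≤ ν * σ / (16 * D1) := by
    have hR3 : (3 : ℤ) ≤ R := by
      have : 3 ≤ R := by omega
      exact_mod_cast this
    have h1 := far_sum M a b hq m w hm0.le hmN hw0 σ R hσ0 hR3 (by
        have h0 : 3 * σ ≤ R * σ := mul_le_mul_of_nonneg_right hR3 hσ0.le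
        linarith only [h0, hxσ, hw1, hσ0]) SB (by
        intro q hqS
        obtain ⟨-, hqy, hdq⟩ := Finset.mem_filter.1 hqS
        refine ⟨hdq.le, ?_⟩
        have h2 := hspread q
        have h0 : 3 * σ ≤ R * σ := mul_le_mul_of_nonneg_right hR3 hσ0.le
        have h3 : 3 * σ ≤ d q := by linarith only [h0, hdq]
        have h4 : σ * (3 * σ) ≤ σ * d q := mul_le_mul_of_nonneg_left h3 hσ0.le
        show s q ^ 2 ≤ 3 * σ * d q
        linarith only [h2, h4]) (by
        have : (1 : ℝ) ≤ D1 := by exact_mod_cast hD1pos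
        linarith)
    refine h1.trans (le_of_eq ?_)
    rw [← hνdef]
    have : (R : ℝ) = 57600 * 16 * D1 := by exact_mod_cast hR
    have e : ((R : ℤ) : ℝ) = 57600 * 16 * D1 := by rw [← this]; push_cast; rfl
    rw [e]
    field_simp
  -- the lower bound
  have hlow : ν * (2 * w) - 2 ≤ ∑ q, P q := by
    have h1 := M.le_mean (m + w) hmwN
    have h2 := M.mean_le (m - w) hmw0
    simp only [hP]
    rw [Finset.sum_sub_distrib]
    push_cast at h1 h2
    linarith
  have hwR : (σ : ℝ) / (4 * D1) - 1 ≤ w := by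
    have h1 : σ < (D1 : ℤ) * (4 * w + 4) := by
      refine lt_of_lt_of_le hx2 ?_
      exact mul_le_mul_of_nonneg_left (by omega) hD1Z.le
    have h2 : (σ : ℝ) < D1 * (4 * w + 4) := by exact_mod_cast h1
    have h3 : (σ : ℝ) / (4 * D1) < w + 1 := by
      rw [div_lt_iff₀ (by positivity)]; linarith
    linarith
  have h1 : ν * (2 * ((σ : ℝ) / (4 * D1) - 1)) ≤ ν * (2 * w) :=
    mul_le_mul_of_nonneg_left (by linarith) hν0.le
  have h2 : ν * (2 * ((σ : ℝ) / (4 * D1) - 1)) = 8 * (ν * σ / (16 * D1)) - 2 * ν := by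
    field_simp
    ring
  have h3 : 200 / 16 < ν * σ / (16 * D1) := by
    rw [lt_div_iff₀ (by positivity)]; linarith
  linarith

theorem core (g : ℝ) (hg : 0 < g) (hg1 : g ≤ 1 / 2) :
    ∃ K : ℝ, 0 < K ∧ ∀ (n N : ℕ) (O : Finset (Fin n → ℤ)), Model N O g 1 →
      ∀ (q : Fin n) (a b : ℤ), Quart O q a b → ((n : ℝ) / N) * ((b : ℝ) - a) ^ 2 ≤ K * b := by
  obtain ⟨J, hJ⟩ := exists_pow_lt_of_lt_one (show (0 : ℝ) < 1 / 4 by norm_num)
    (show 1 - g / 8 < 1 by linarith)
  obtain ⟨j0, hj0⟩ := exists_pow_lt_of_lt_one (show (0 : ℝ) < g / 8 by linarith)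
    (show (1 : ℝ) / 3 < 1 by norm_num)
  set D1 : ℕ := 8 * J + 8 with hD1
  set R : ℕ := 57600 * 16 * D1 with hR
  have hpos : (0 : ℝ) < 1 / (64 * D1 * (R + 1)) := by
    have : (0 : ℝ) < D1 := by exact_mod_cast (show 0 < D1 by omega)
    positivity
  obtain ⟨T0, hT0⟩ := exists_pow_lt_of_lt_one hpos (show (1 : ℝ) / 3 < 1 by norm_num)
  set T : ℕ := T0 + (j0 + 1) with hT
  have hT2 : ((1 : ℝ) / 3) ^ T * (64 * D1 * (R + 1)) ≤ 1 := by
    have hD1R : (0 : ℝ) < D1 := by exact_mod_cast (show 0 < D1 by omega)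
    have h1 : ((1 : ℝ) / 3) ^ T ≤ (1 / 3) ^ T0 :=
      pow_le_pow_of_le_one (by norm_num) (by norm_num) (by omega)
    have h2 : ((1 : ℝ) / 3) ^ T ≤ 1 / (64 * D1 * (R + 1)) := h1.trans hT0.le
    rw [le_div_iff₀ (by positivity)] at h2
    exact h2
  set D : ℕ := 2 * J * D1 * (4 * T) with hD
  set R2 : ℕ := R + (j0 + 1) * (R + 3) with hR2
  set K : ℕ := 4 * D * R2 with hK
  obtain ⟨L, hL⟩ := exists_nat_gt (4 * ((K + 3 : ℕ) : ℝ) ^ 2 / g ^ 2)
  set C1 : ℝ := 2 ^ (2 ^ L) * ((4 / g) * (K + 3)) with hC1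
  set δ : ℝ := 1 / (16 * D1 * C1) with hδ
  set Kf : ℝ := (2 + 4 * R2) / δ ^ 2 + 200 * D1 + D with hKf
  have hKfpos : 0 < Kf := by
    have hD1R : (0 : ℝ) < D1 := by exact_mod_cast (show 0 < D1 by omega)
    have h1 : 0 ≤ (2 + 4 * (R2 : ℝ)) / δ ^ 2 := by positivity
    have h2 : (0 : ℝ) ≤ D := by positivity
    rw [hKf]; linarith
  refine ⟨Kf, hKfpos, ?_⟩
  intro n N O M q a' b' hq'
  choose a b hq using exists_quart M
  have ha : a' = a q := le_antisymm ((hq q).le_a_of hq'.a_le) (hq'.le_a_of (hq q).a_le)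
  have hb : b' = b q := le_antisymm (hq'.b_le_of (hq q).le_b) ((hq q).b_le_of hq'.le_b)
  rw [ha, hb]
  by_contra hcon
  push Not at hcon
  have : Nonempty (Fin n) := ⟨q⟩
  have hbpos : ∀ q, (0 : ℝ) < b q := by
    intro q
    have h1 := (hq q).lt
    have h2 := (hq q).a_nonneg M
    exact_mod_cast (show 0 < b q by omega)
  obtain ⟨y, hy⟩ := Finite.exists_max (fun q => ((b q : ℝ) - a q) ^ 2 / b q)
  have hν : (0 : ℝ) ≤ (n : ℝ) / N := by positivity
  refine core_false M hg hg1 a b hq y ?_ J j0 T R D1 D R2 K L hJ.le hD1 hj0.le hR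
    (by omega) hT2 hD hR2 hK hL C1 δ Kf hC1 hδ hKf ?_
  · intro z
    have h1 := hy z
    rw [div_le_div_iff₀ (hbpos z) (hbpos y)] at h1
    exact_mod_cast h1
  · have h1 := hy q
    have h2 : Kf < ((n : ℝ) / N) * (((b q : ℝ) - a q) ^ 2 / b q) := by
      rw [← mul_div_assoc, lt_div_iff₀ (hbpos q)]; exact hcon
    have h3 : Kf < ((n : ℝ) / N) * (((b y : ℝ) - a y) ^ 2 / b y) :=
      lt_of_lt_of_le h2 (mul_le_mul_of_nonneg_left h1 hν)
    rw [← mul_div_assoc, lt_div_iff₀ (hbpos y)] at h3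
    exact h3

end Pool.Agent.Helper23.KS
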